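import Pool.Agent.N813.OF.Stm
import Pool.Agent.N756.OF.Bump2

/-! Project OF, BUMP2: scaled affine bumps. -/

set_option autoImplicit false

namespace Pool.Agent.N813.OF.BUMP2

theorem t : S_BUMP2 := Pool.Agent.N756.OF.bump2

end Pool.Agent.N813.OF.BUMP2
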