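import Pool.Agent.N813.OF.Stm

set_option autoImplicit false

/-!
Project OF (helper813), part EIGI (helper595): an isometry on an invariant subspace gives an
eigenvalue of modulus one.
-/

open Matrix

namespace Pool.Agent.N813.OF.EIGI

section Gen

variable {E : Type*} [AddCommGroup E] [Module ℝ E] {n : ℕ}

theorem scal (μ : ℂ) (v : Fin n → ℂ) : Matrix.scalar (Fin n) μ *ᵥ v = μ • v := by
  funext i
  rw [Matrix.scalar_apply, Matrix.mulVec_diagonal, Pi.smul_apply, smul_eq_mul]

/-- complex eigenvectors as pairs of real vectors -/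
theorem root_iff (B : Module.Basis (Fin n) ℝ E) (A : E →ₗ[ℝ] E) (μ : ℂ) :
    ((LinearMap.toMatrix B B A).map (algebraMap ℝ ℂ)).charpoly.IsRoot μ ↔
      ∃ a b : E, (a ≠ 0 ∨ b ≠ 0) ∧ A a = μ.re • a - μ.im • b ∧ A b = μ.im • a + μ.re • b := by
  have hrep : ∀ x : E, B.equivFun (A x) = LinearMap.toMatrix B B A *ᵥ B.equivFun x := fun x =>
    (LinearMap.toMatrix_mulVec_repr B B A x).symm
  set N := LinearMap.toMatrix B B A with hN
  have key : ∀ a b : E, ((N.map (algebraMap ℝ ℂ)) *ᵥ
      (fun i => (B.equivFun a i : ℂ) + (B.equivFun b i : ℂ) * Complex.I) =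
        μ • (fun i => (B.equivFun a i : ℂ) + (B.equivFun b i : ℂ) * Complex.I)) ↔
      (A a = μ.re • a - μ.im • b ∧ A b = μ.im • a + μ.re • b) := by
    intro a b
    have h1 : ∀ i, ((N.map (algebraMap ℝ ℂ)) *ᵥ
        (fun i => (B.equivFun a i : ℂ) + (B.equivFun b i : ℂ) * Complex.I)) i =
        ((B.equivFun (A a) i : ℝ) : ℂ) + ((B.equivFun (A b) i : ℝ) : ℂ) * Complex.I := by
      intro i
      rw [hrep, hrep]
      simp only [mulVec, dotProduct, Matrix.map_apply, Complex.coe_algebraMap]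
      push_cast
      rw [Finset.sum_mul, ← Finset.sum_add_distrib]
      refine Finset.sum_congr rfl fun j _ => ?_
      ring
    have h2 : ∀ i, (μ • (fun i => (B.equivFun a i : ℂ) + (B.equivFun b i : ℂ) * Complex.I)) i =
        ((B.equivFun (μ.re • a - μ.im • b) i : ℝ) : ℂ) +
          ((B.equivFun (μ.im • a + μ.re • b) i : ℝ) : ℂ) * Complex.I := by
      intro i
      apply Complex.ext
      · simp
      · simp
        ring
    have h3 : ∀ p q r s : ℝ, ((p : ℂ) + q * Complex.I = r + s * Complex.I) ↔ (p = r ∧ q = s) := by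
      intro p q r s
      constructor
      · intro h
        have e1 := congrArg Complex.re h
        have e2 := congrArg Complex.im h
        simp at e1 e2
        exact ⟨e1, e2⟩
      · rintro ⟨rfl, rfl⟩
        rfl
    rw [funext_iff]
    constructor
    · intro h
      have h' : ∀ i, B.equivFun (A a) i = B.equivFun (μ.re • a - μ.im • b) i ∧
          B.equivFun (A b) i = B.equivFun (μ.im • a + μ.re • b) i := fun i =>
        (h3 _ _ _ _).1 ((h1 i).symm.trans ((h i).trans (h2 i)))
      exact ⟨B.equivFun.injective (funext fun i => (h' i).1),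
        B.equivFun.injective (funext fun i => (h' i).2)⟩
    · rintro ⟨ha, hb⟩ i
      rw [h1, h2, ha, hb]
  rw [Polynomial.IsRoot.def, Matrix.eval_charpoly, ← Matrix.exists_mulVec_eq_zero_iff]
  constructor
  · rintro ⟨v, hv0, hv⟩
    have hv' : (N.map (algebraMap ℝ ℂ)) *ᵥ v = μ • v := by
      rw [Matrix.sub_mulVec, sub_eq_zero] at hv
      rw [← hv, scal]
    have hvab : v = fun i => (B.equivFun (B.equivFun.symm fun i => (v i).re) i : ℂ) +
        (B.equivFun (B.equivFun.symm fun i => (v i).im) i : ℂ) * Complex.I := by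
      funext i
      rw [LinearEquiv.apply_symm_apply, LinearEquiv.apply_symm_apply]
      exact (Complex.re_add_im (v i)).symm
    refine ⟨B.equivFun.symm fun i => (v i).re, B.equivFun.symm fun i => (v i).im, ?_,
      (key _ _).1 (by rw [← hvab]; exact hv')⟩
    by_contra hcon
    push Not at hcon
    apply hv0
    rw [hvab, hcon.1, hcon.2]
    funext i
    simp
  · rintro ⟨a, b, hne, hab⟩
    refine ⟨fun i => (B.equivFun a i : ℂ) + (B.equivFun b i : ℂ) * Complex.I, ?_, ?_⟩
    · intro h0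
      have h4 : ∀ i, B.equivFun a i = 0 ∧ B.equivFun b i = 0 := by
        intro i
        have e := congrFun h0 i
        have e1 := congrArg Complex.re e
        have e2 := congrArg Complex.im e
        simp at e1 e2
        exact ⟨by simpa using e1, by simpa using e2⟩
      rcases hne with h | h
      · exact h (B.equivFun.injective (by rw [map_zero]; exact funext fun i => (h4 i).1))
      · exact h (B.equivFun.injective (by rw [map_zero]; exact funext fun i => (h4 i).2))
    · rw [Matrix.sub_mulVec, sub_eq_zero, (key a b).2 hab, scal]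

end Gen

section Euc

/-- for a Euclidean space: roots of the characteristic polynomial -/
theorem charpoly_root {n : ℕ} (A : EuclideanSpace ℝ (Fin n) →ₗ[ℝ] EuclideanSpace ℝ (Fin n)) (μ : ℂ) :
    ((LinearMap.charpoly A).map (algebraMap ℝ ℂ)).IsRoot μ ↔
      ∃ a b : EuclideanSpace ℝ (Fin n), (a ≠ 0 ∨ b ≠ 0) ∧ A a = μ.re • a - μ.im • b ∧
        A b = μ.im • a + μ.re • b := by
  have h := root_iff (EuclideanSpace.basisFun (Fin n) ℝ).toBasis A μ
  rw [Matrix.charpoly_map, LinearMap.charpoly_toMatrix] at h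
  exact h

/-- a complex eigenvector exists -/
theorem exists_pair {n : ℕ} (hn : 1 ≤ n)
    (A : EuclideanSpace ℝ (Fin n) →ₗ[ℝ] EuclideanSpace ℝ (Fin n)) :
    ∃ (μ : ℂ) (a b : EuclideanSpace ℝ (Fin n)), (a ≠ 0 ∨ b ≠ 0) ∧
      A a = μ.re • a - μ.im • b ∧ A b = μ.im • a + μ.re • b := by
  have hdeg : ((LinearMap.charpoly A).map (algebraMap ℝ ℂ)).degree ≠ 0 := by
    rw [Polynomial.degree_map]
    have h1 := LinearMap.charpoly_natDegree A
    rw [finrank_euclideanSpace, Fintype.card_fin] at h1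
    intro h2
    have := Polynomial.natDegree_eq_zero_iff_degree_le_zero.2 h2.le
    omega
  obtain ⟨μ, hμ⟩ := IsAlgClosed.exists_root _ hdeg
  exact ⟨μ, (charpoly_root A μ).1 hμ⟩

/-- The statement EIGI. -/
theorem eigi (n d : ℕ) (D : EuclideanSpace ℝ (Fin n) →L[ℝ] EuclideanSpace ℝ (Fin n))
    (J : EuclideanSpace ℝ (Fin d) →L[ℝ] EuclideanSpace ℝ (Fin n))
    (O : EuclideanSpace ℝ (Fin d) ≃ₗᵢ[ℝ] EuclideanSpace ℝ (Fin d)) (hd : 1 ≤ d)
    (hJ : Function.Injective J) (hDJ : ∀ e, D (J e) = J (O e)) :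
    ∃ μ : ℂ, ‖μ‖ = 1 ∧
      ((LinearMap.charpoly (D : EuclideanSpace ℝ (Fin n) →ₗ[ℝ] EuclideanSpace ℝ (Fin n))).map
        (algebraMap ℝ ℂ)).IsRoot μ := by
  obtain ⟨μ, a, b, hne, ha, hb⟩ := exists_pair hd
    (O.toLinearEquiv : EuclideanSpace ℝ (Fin d) →ₗ[ℝ] EuclideanSpace ℝ (Fin d))
  have ha' : O a = μ.re • a - μ.im • b := ha
  have hb' : O b = μ.im • a + μ.re • b := hb
  refine ⟨μ, ?_, ?_⟩
  · have h1 : ‖O a‖ ^ 2 + ‖O b‖ ^ 2 = ‖μ‖ ^ 2 * (‖a‖ ^ 2 + ‖b‖ ^ 2) := by
      rw [ha', hb', ← Complex.normSq_eq_norm_sq, Complex.normSq_apply,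
        @norm_sub_sq ℝ, @norm_add_sq ℝ]
      simp only [norm_smul, inner_smul_left, inner_smul_right, mul_pow, Real.norm_eq_abs, sq_abs]
      simp
      ring
    rw [O.norm_map, O.norm_map] at h1
    have hpos : 0 < ‖a‖ ^ 2 + ‖b‖ ^ 2 := by
      rcases hne with h | h
      · have := norm_pos_iff.2 h
        positivity
      · have := norm_pos_iff.2 h
        positivity
    have h2 : ‖μ‖ ^ 2 = 1 := by
      have : (‖μ‖ ^ 2 - 1) * (‖a‖ ^ 2 + ‖b‖ ^ 2) = 0 := by linarith
      rcases mul_eq_zero.1 this with h | h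
      · linarith
      · exact absurd h hpos.ne'
    exact (pow_eq_one_iff_of_nonneg (norm_nonneg _) two_ne_zero).1 h2
  · refine (charpoly_root _ μ).2 ⟨J a, J b, ?_, ?_, ?_⟩
    · rcases hne with h | h
      · left
        intro h0
        exact h (hJ (by rw [h0, map_zero]))
      · right
        intro h0
        exact h (hJ (by rw [h0, map_zero]))
    · show D (J a) = _
      rw [hDJ, ha', map_sub, map_smul, map_smul]
    · show D (J b) = _
      rw [hDJ, hb', map_add, map_smul, map_smul]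

end Euc

/-- EIGI -/
theorem t : S_EIGI := by
  intro n d D J O hd hJ hDJ
  exact eigi n d D J O hd hJ hDJ

end Pool.Agent.N813.OF.EIGI
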