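import Pool.Agent.N813.OF.Stm

/-!
# Project OF, part GAP: eigenvalues at the periodic points
-/

set_option autoImplicit false

open scoped Manifold ContDiff Topology
open MeasureTheory Filter Set Metric

universe u v

namespace Pool.Agent.N813.OF.GAP

open Pool.Agent.H718R2.G Pool.Agent.W564.SC Pool.Agent.N813.EM Pool.Agent.Y368.CL
  Pool.Agent.TH80.OMS Pool.Agent.N813.OE Pool.Agent.N813.OF

/-! ### Eigenvalues -/

theorem eig_iff {n : ℕ} (D : V n →L[ℝ] V n) (μ : ℂ) :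
    Eig D μ ↔ (Matrix.scalar (Fin n) μ - ((LinearMap.toMatrix
      (EuclideanSpace.basisFun (Fin n) ℝ).toBasis (EuclideanSpace.basisFun (Fin n) ℝ).toBasis
      (D : V n →ₗ[ℝ] V n)).map (algebraMap ℝ ℂ))).det = 0 := by
  unfold Eig
  rw [← LinearMap.charpoly_toMatrix (D : V n →ₗ[ℝ] V n)
    (EuclideanSpace.basisFun (Fin n) ℝ).toBasis, ← Matrix.charpoly_map, Polynomial.IsRoot.def,
    Matrix.eval_charpoly]

theorem eig_smul {n : ℕ} {D : V n →L[ℝ] V n} {μ : ℂ} (h : Eig D μ) (c : ℝ) :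
    Eig (c • D) ((c : ℂ) * μ) := by
  rw [eig_iff] at h ⊢
  have e1 : Matrix.scalar (Fin n) ((c : ℂ) * μ) - ((LinearMap.toMatrix
      (EuclideanSpace.basisFun (Fin n) ℝ).toBasis (EuclideanSpace.basisFun (Fin n) ℝ).toBasis
      ((c • D : V n →L[ℝ] V n) : V n →ₗ[ℝ] V n)).map (algebraMap ℝ ℂ)) =
      (c : ℂ) • (Matrix.scalar (Fin n) μ - ((LinearMap.toMatrix
      (EuclideanSpace.basisFun (Fin n) ℝ).toBasis (EuclideanSpace.basisFun (Fin n) ℝ).toBasis
      (D : V n →ₗ[ℝ] V n)).map (algebraMap ℝ ℂ))) := by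
    ext i j
    have h1 : ((c • D : V n →L[ℝ] V n) : V n →ₗ[ℝ] V n) = c • (D : V n →ₗ[ℝ] V n) := rfl
    rw [h1, map_smul]
    rw [Matrix.sub_apply, Matrix.smul_apply, Matrix.sub_apply, Matrix.scalar_apply,
      Matrix.scalar_apply, Matrix.diagonal_apply, Matrix.diagonal_apply, Matrix.map_apply,
      Matrix.map_apply, Matrix.smul_apply, smul_eq_mul, smul_eq_mul, map_mul,
      Complex.coe_algebraMap]
    split_ifs
    · ring
    · ring
  rw [e1, Matrix.det_smul, h, mul_zero]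

theorem eig_ne_zero {n : ℕ} {D E : V n →L[ℝ] V n} (h : ∀ v, E (D v) = v) {μ : ℂ}
    (hμ : Eig D μ) : μ ≠ 0 := by
  intro h0
  rw [h0] at hμ
  unfold Eig at hμ
  rw [Polynomial.IsRoot.def, Polynomial.eval_zero_map] at hμ
  have h1 : (LinearMap.charpoly (D : V n →ₗ[ℝ] V n)).IsRoot 0 := by
    rw [Polynomial.IsRoot.def]
    exact (algebraMap ℝ ℂ).injective (by rw [hμ, map_zero])
  have h2 : Module.End.HasEigenvalue (D : V n →ₗ[ℝ] V n) (0 : ℝ) :=
    (Module.End.hasEigenvalue_iff_isRoot_charpoly _ _).2 h1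
  obtain ⟨v, hv⟩ := h2.exists_hasEigenvector
  have h3 := hv.apply_eq_smul
  have h4 : D v = 0 := by
    have : D v = (0 : ℝ) • v := h3
    rw [this, zero_smul]
  have h5 := h v
  rw [h4, map_zero] at h5
  exact hv.2 h5.symm

/-! ### The derivative is invertible -/

theorem iter_inv {n : ℕ} {N : Type u} [TopologicalSpace N] [ChartedSpace (V n) N] {r : ℕ∞}
    (F : DiffM n N r) (m : ℕ) (x : N) : (⇑F.symm)^[m] ((⇑F)^[m] x) = x := by
  have h : Function.LeftInverse (⇑F.symm) (⇑F) := F.symm_apply_apply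
  exact h.iterate m x

theorem inv_deriv {n : ℕ} {N : Type u} [MetricSpace N] [ChartedSpace (V n) N]
    [IsManifold (𝓡 n) ∞ N] {r : ℕ∞} (hr : 1 ≤ r) (F : DiffM n N r) (m : ℕ) (p : N)
    (hp : (⇑F)^[m] p = p) (ψ : OpenPartialHomeomorph N (V n))
    (hψ : ψ ∈ IsManifold.maximalAtlas (𝓡 n) ∞ N) (hpψ : p ∈ ψ.source) (D : V n →L[ℝ] V n)
    (hD : DerAt F ψ m p D) : ∃ E : V n →L[ℝ] V n, ∀ v, E (D v) = v := by
  have hq : (⇑F.symm)^[m] p = p := by
    have := iter_inv F m p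
    rwa [hp] at this
  have hx : ψ p ∈ ψ.target := ψ.map_source hpψ
  have hps : ψ.symm (ψ p) = p := ψ.left_inv hpψ
  have hd : DifferentiableAt ℝ (ψ ∘ (⇑F.symm)^[m] ∘ ψ.symm) (ψ p) := by
    refine diff_charts (r := r) hr ((⇑F.symm)^[m]) (F.symm.contMDiff.iterate m) hψ hψ hx ?_
    rw [hps, hq]
    exact hpψ
  obtain ⟨E, hE⟩ := hd
  refine ⟨E, ?_⟩
  unfold DerAt at hD
  have hval : ψ ((⇑F)^[m] (ψ.symm (ψ p))) = ψ p := by rw [hps, hp]
  have hE' : HasFDerivAt (ψ ∘ (⇑F.symm)^[m] ∘ ψ.symm) E (ψ ((⇑F)^[m] (ψ.symm (ψ p)))) := by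
    rw [hval]; exact hE
  have hcomp := hE'.comp (ψ p) hD
  have hid : ((ψ ∘ (⇑F.symm)^[m] ∘ ψ.symm) ∘ fun v => ψ ((⇑F)^[m] (ψ.symm v))) =ᶠ[𝓝 (ψ p)]
      id := by
    have hc : ContinuousAt (fun v => (⇑F)^[m] (ψ.symm v)) (ψ p) :=
      ((F.continuous.iterate m).continuousAt).comp (ψ.continuousAt_symm hx)
    have h1 : ∀ᶠ v in 𝓝 (ψ p), (⇑F)^[m] (ψ.symm v) ∈ ψ.source := by
      refine hc.eventually (ψ.open_source.mem_nhds ?_)
      show (⇑F)^[m] (ψ.symm (ψ p)) ∈ ψ.source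
      rw [hps, hp]
      exact hpψ
    filter_upwards [h1, ψ.open_target.mem_nhds hx] with v hv hv'
    show ψ ((⇑F.symm)^[m] (ψ.symm (ψ ((⇑F)^[m] (ψ.symm v))))) = v
    rw [ψ.left_inv hv, iter_inv, ψ.right_inv hv']
  have hcomp2 : HasFDerivAt (id : V n → V n) (E.comp D) (ψ p) :=
    hcomp.congr_of_eventuallyEq hid.symm
  have huniq := hcomp2.unique (hasFDerivAt_id (ψ p))
  intro v
  have := DFunLike.congr_fun huniq v
  exact this

/-! ### The main statement -/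

theorem t (hM : S_MULT.{u}) (hH : S_HYP.{u}) : S_GAP.{u} := by
  classical
  intro n N _ _ _ _ r hr hL F hF
  obtain ⟨U, hU, hFU, hhyp⟩ := hH n N r hr F hF
  rcases isEmpty_or_nonempty N with hN | hN
  · exact ⟨1, le_rfl, hr, 1, one_pos, fun m p => (hN.false p).elim⟩
  -- the charts
  have hgc : ∀ z : N, ∃ χ : OpenPartialHomeomorph N (V n), GoodChart n N χ z :=
    fun z => Pool.Agent.W699.SC.gc n N z
  choose χ hχ using hgc
  have hLip : ∀ z : N, ∃ L : ℝ, 1 ≤ L ∧ ∀ y ∈ (χ z).source, ∀ y' ∈ (χ z).source,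
      ‖χ z y‖ ≤ 1 / 2 → ‖χ z y'‖ ≤ 1 / 2 → dist y y' ≤ L * ‖χ z y - χ z y'‖ := by
    intro z
    obtain ⟨L, hL0, h⟩ := hL (χ z) z (hχ z)
    refine ⟨max L 1, le_max_right _ _, fun y hy y' hy' h1 h2 => ?_⟩
    exact (h y hy y' hy' h1 h2).1.trans
      (mul_le_mul_of_nonneg_right (le_max_left _ _) (norm_nonneg _))
  choose L hL1 hL2 using hLip
  have hMz : ∀ z : N, _ := fun z => hM n N r hr F (χ z) z (hχ z) U hU hFU
  choose k₀ hk1 hkr κ₀ hκ₀ hmul using hMz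
  -- the cover
  let W : N → Set N := fun z => {y | y ∈ (χ z).source ∧ ‖χ z y‖ < min (κ₀ z) (1 / 4)}
  have hW : ∀ z, W z ∈ 𝓝 z := by
    intro z
    have h1 : ∀ᶠ y in 𝓝 z, y ∈ (χ z).source := (χ z).open_source.mem_nhds (hχ z).src
    have h2 : ∀ᶠ y in 𝓝 z, ‖χ z y‖ < min (κ₀ z) (1 / 4) := by
      have hc : ContinuousAt (fun y => ‖χ z y‖) z := ((χ z).continuousAt (hχ z).src).norm
      refine hc.eventually (gt_mem_nhds ?_)
      show ‖χ z z‖ < _
      rw [(hχ z).zero, norm_zero]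
      exact lt_min (hκ₀ z) (by norm_num)
    exact h1.and h2
  obtain ⟨Z, hZ⟩ := CompactSpace.elim_nhds_subcover W hW
  have hcov : ∀ y : N, ∃ z ∈ Z, y ∈ W z := by
    intro y
    have : y ∈ ⋃ x ∈ Z, W x := by rw [hZ]; trivial
    simpa using this
  choose az haZ haW using hcov
  have hZne : Z.Nonempty := ⟨az hN.some, haZ _⟩
  obtain ⟨zk, hzk, hkmax⟩ := Finset.exists_max_image Z k₀ hZne
  have hq0 : (0 : ℝ) < Z.card := by exact_mod_cast hZne.card_pos
  obtain ⟨q, hq⟩ : ∃ q : ℝ, q = Z.card := ⟨_, rfl⟩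
  rw [← hq] at hq0
  have hL0 : ∀ z, 0 < L z := fun z => lt_of_lt_of_le one_pos (hL1 z)
  -- the constant
  let f : N → ℝ := fun z => min (min (1 / 2) (κ₀ z))
    (min (κ₀ z / (2 * q * (4 * L z) ^ (k₀ z - 1))) (1 / q))
  have hf0 : ∀ z, 0 < f z := by
    intro z
    have := hL0 z
    have := hκ₀ z
    exact lt_min (lt_min (by norm_num) (hκ₀ z)) (lt_min (by positivity) (by positivity))
  obtain ⟨zf, hzf, hfmin⟩ := Finset.exists_min_image Z f hZne
  refine ⟨k₀ zk, hk1 zk, hkr zk, f zf, hf0 zf, ?_⟩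
  obtain ⟨κ, hκ⟩ : ∃ κ, κ = f zf := ⟨_, rfl⟩
  obtain ⟨k, hk⟩ : ∃ k, k = k₀ zk := ⟨_, rfl⟩
  rw [← hκ, ← hk]
  rw [← hk] at hkmax
  have hκ0 : 0 < κ := by rw [hκ]; exact hf0 zf
  have hκZ : ∀ z ∈ Z, κ ≤ f z := fun z hz => by rw [hκ]; exact hfmin z hz
  have hκ1 : κ ≤ 1 / 2 := (hκZ zf hzf).trans ((min_le_left _ _).trans (min_le_left _ _))
  have hκq : κ * q ≤ 1 := by
    have h1 : κ ≤ 1 / q := (hκZ zf hzf).trans ((min_le_right _ _).trans (min_le_right _ _))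
    rwa [le_div_iff₀ hq0] at h1
  intro m p ρ hm hp hap hρκ ψ hψ hpψ D hD μ hμ
  by_contra hcon
  have hcon := not_le.1 hcon
  obtain ⟨E, hE⟩ := inv_deriv hr F m p hp ψ hψ hpψ D hD
  have hμ0 := eig_ne_zero hE hμ
  have hμn : 0 < ‖μ‖ := norm_pos_iff.2 hμ0
  -- pigeonhole
  obtain ⟨S, hS⟩ : ∃ S : ℝ, S = ∑ i ∈ Finset.range m, ρ i ^ (k - 1) := ⟨_, rfl⟩
  rw [← hS] at hcon
  have hρ0 : ∀ i < m, 0 < ρ i := fun i hi => (hap i hi).1
  have hS0 : 0 < S := by
    rw [hS]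
    refine Finset.sum_pos (fun i hi => pow_pos (hρ0 i (Finset.mem_range.1 hi)) _) ?_
    exact ⟨0, Finset.mem_range.2 (by omega)⟩
  have hfib : ∑ z ∈ Z, ∑ i ∈ (Finset.range m).filter (fun i => az ((⇑F)^[i] p) = z),
      ρ i ^ (k - 1) = S := by
    rw [hS]
    exact Finset.sum_fiberwise_of_maps_to (fun i _ => haZ _) _
  obtain ⟨z, hz, hSz⟩ : ∃ z ∈ Z, S / q ≤
      ∑ i ∈ (Finset.range m).filter (fun i => az ((⇑F)^[i] p) = z), ρ i ^ (k - 1) := by
    refine Finset.exists_le_of_sum_le hZne ?_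
    rw [hfib, Finset.sum_const, nsmul_eq_mul, ← hq]
    apply le_of_eq
    field_simp
  obtain ⟨I, hI⟩ : ∃ I : Finset ℕ,
    I = (Finset.range m).filter (fun i => az ((⇑F)^[i] p) = z) := ⟨_, rfl⟩
  rw [← hI] at hSz
  obtain ⟨Sz, hSz'⟩ : ∃ Sz : ℝ, Sz = ∑ i ∈ I, ρ i ^ (k - 1) := ⟨_, rfl⟩
  rw [← hSz'] at hSz
  have hSz0 : 0 < Sz := lt_of_lt_of_le (by positivity) hSz
  have hmI : ∀ i ∈ I, i < m ∧ (⇑F)^[i] p ∈ W z := by
    intro i hi
    rw [hI, Finset.mem_filter, Finset.mem_range] at hi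
    refine ⟨hi.1, ?_⟩
    have := haW ((⇑F)^[i] p)
    rwa [hi.2] at this
  -- the factors
  obtain ⟨s, hs⟩ : ∃ s : ℝ, s = - Real.log ‖μ‖ := ⟨_, rfl⟩
  have hs1 : |s| < κ * S := by rw [hs, abs_neg]; exact hcon
  obtain ⟨x, hx⟩ : ∃ x : ℕ → ℝ, ∀ i, x i = s * ρ i ^ (k - 1) / Sz := ⟨_, fun _ => rfl⟩
  have hxs : ∑ i ∈ I, x i = s := by
    simp only [hx]
    rw [← Finset.sum_div, ← Finset.mul_sum, ← hSz']
    field_simp
  have hxb : ∀ i ∈ I, |x i| ≤ κ * q * ρ i ^ (k - 1) := by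
    intro i hi
    have hr0 := pow_pos (hρ0 i (hmI i hi).1) (k - 1)
    rw [hx, abs_div, abs_mul, abs_of_pos hr0, abs_of_pos hSz0, div_le_iff₀ hSz0]
    have h1 : S ≤ q * Sz := by
      rw [div_le_iff₀ hq0] at hSz
      linarith
    have h2 : κ * S ≤ κ * (q * Sz) := mul_le_mul_of_nonneg_left h1 hκ0.le
    have h3 : |s| ≤ κ * (q * Sz) := hs1.le.trans h2
    have h4 := mul_le_mul_of_nonneg_right h3 hr0.le
    linarith
  have hρ1 : ∀ i ∈ I, ρ i ≤ 1 := fun i hi => by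
    have := hρκ i (hmI i hi).1
    linarith
  have hxb1 : ∀ i ∈ I, |x i| ≤ 1 := by
    intro i hi
    have h1 := hxb i hi
    have h2 : ρ i ^ (k - 1) ≤ 1 := pow_le_one₀ (hρ0 i (hmI i hi).1).le (hρ1 i hi)
    have h3 : 0 ≤ κ * q := by positivity
    calc |x i| ≤ κ * q * ρ i ^ (k - 1) := h1
      _ ≤ κ * q * 1 := mul_le_mul_of_nonneg_left h2 h3
      _ ≤ 1 := by linarith
  have hLz := hL0 z
  have hLz1 := hL1 z
  have hκz : κ ≤ κ₀ z := (hκZ z hz).trans ((min_le_left _ _).trans (min_le_right _ _))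
  have hκz2 : κ ≤ κ₀ z / (2 * q * (4 * L z) ^ (k₀ z - 1)) :=
    (hκZ z hz).trans ((min_le_right _ _).trans (min_le_left _ _))
  obtain ⟨G, hG, hGp, hGD⟩ := hmul z m p hm hp I (fun i => ρ i / (4 * L z))
    (fun i => Real.exp (x i) - 1) (by
      intro i hi
      obtain ⟨him, hiW, hiW2⟩ := hmI i hi
      have hri := hρ0 i him
      have hrk := hρκ i him
      have hquo : ρ i / (4 * L z) ≤ ρ i := by
        rw [div_le_iff₀ (by positivity)]
        nlinarith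
      refine ⟨him, hiW, hiW2.trans_le (min_le_left _ _), by positivity, by linarith, ?_, ?_⟩
      · have h1 := Real.abs_exp_sub_one_le (hxb1 i hi)
        have h2 := hxb i hi
        have h3 : ρ i ^ (k - 1) ≤ ρ i ^ (k₀ z - 1) := by
          refine pow_le_pow_of_le_one hri.le (hρ1 i hi) ?_
          have := hkmax z hz
          omega
        have h4 : ρ i ^ (k₀ z - 1) = (4 * L z) ^ (k₀ z - 1) * (ρ i / (4 * L z)) ^ (k₀ z - 1) := by
          rw [← mul_pow]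
          congr 1
          field_simp
        have h5 : 2 * κ * q * (4 * L z) ^ (k₀ z - 1) ≤ κ₀ z := by
          rw [le_div_iff₀ (by positivity)] at hκz2
          linarith
        have h6 : 0 ≤ (ρ i / (4 * L z)) ^ (k₀ z - 1) := by positivity
        calc |Real.exp (x i) - 1| ≤ 2 * |x i| := h1
          _ ≤ 2 * (κ * q * ρ i ^ (k - 1)) := by linarith
          _ ≤ 2 * (κ * q * ρ i ^ (k₀ z - 1)) := by
              have : 0 ≤ κ * q := by positivity
              have := mul_le_mul_of_nonneg_left h3 this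
              linarith
          _ = 2 * κ * q * (4 * L z) ^ (k₀ z - 1) * (ρ i / (4 * L z)) ^ (k₀ z - 1) := by
              rw [h4]; ring
          _ ≤ κ₀ z * (ρ i / (4 * L z)) ^ (k₀ z - 1) := mul_le_mul_of_nonneg_right h5 h6
      · intro j hj hji hjs
        have hi4 : ‖χ z ((⇑F)^[i] p)‖ < 1 / 4 := hiW2.trans_le (min_le_right _ _)
        by_cases hj2 : ‖χ z ((⇑F)^[j] p)‖ ≤ 1 / 2
        · have h1 := hL2 z _ hjs _ hiW hj2 (by linarith)
          have h2 := (hap i him).2 j hj hji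
          have h3 : 2 * (ρ i / (4 * L z)) = ρ i / (2 * L z) := by
            field_simp
            ring
          rw [h3, div_le_iff₀ (by positivity)]
          have h4 := norm_nonneg (χ z ((⇑F)^[j] p) - χ z ((⇑F)^[i] p))
          nlinarith
        · have h1 := norm_sub_norm_le (χ z ((⇑F)^[j] p)) (χ z ((⇑F)^[i] p))
          have h2 := not_le.1 hj2
          have h3 : 2 * (ρ i / (4 * L z)) ≤ 1 / 4 := by
            have h3 : 2 * (ρ i / (4 * L z)) = ρ i / (2 * L z) := by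
              field_simp
              ring
            rw [h3, div_le_iff₀ (by positivity)]
            nlinarith
          linarith)
  have hprod : ∏ i ∈ I, (1 + (Real.exp (x i) - 1)) = Real.exp s := by
    have : ∀ i ∈ I, (1 + (Real.exp (x i) - 1)) = Real.exp (x i) := fun i _ => by ring
    rw [Finset.prod_congr rfl this, ← Real.exp_sum, hxs]
  have hGD' := hGD ψ hψ hpψ D hD
  rw [hprod] at hGD'
  refine hhyp G hG m p hm hGp ψ hψ hpψ (Real.exp s • D) hGD' _ (eig_smul hμ (Real.exp s)) ?_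
  rw [norm_mul, Complex.norm_real, Real.norm_of_nonneg (Real.exp_pos s).le, hs, Real.exp_neg,
    Real.exp_log hμn, inv_mul_cancel₀ hμn.ne']

end Pool.Agent.N813.OF.GAP
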