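import Pool.Agent.N813.OF.Stm

/-!
# Project OF: multiplication of the derivative at a periodic point

(helper901 for helper813)
-/

set_option autoImplicit false
set_option linter.unusedSectionVars false

open scoped Manifold ContDiff Topology
open Filter Set Metric

universe u

namespace Pool.Agent.N813.OF.MULT

open Pool.Agent.H718R2.G Pool.Agent.W564.SC Pool.Agent.R773.FC

section

variable {n : ℕ} {N : Type u} [TopologicalSpace N]

/-- the derivative of `f` at `x` in charts -/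
structure DA (ψ φ : OpenPartialHomeomorph N (V n)) (f : N → N) (x : N) (L : V n →L[ℝ] V n) :
    Prop where
  src : x ∈ ψ.source
  tgt : f x ∈ φ.source
  cont : ContinuousAt f x
  der : HasFDerivAt (fun v => φ (f (ψ.symm v))) L (ψ x)

theorem DA.comp {ψ φ η : OpenPartialHomeomorph N (V n)} {f g : N → N} {x : N}
    {L L' : V n →L[ℝ] V n} (h : DA ψ φ f x L) (h' : DA φ η g (f x) L') :
    DA ψ η (fun y => g (f y)) x (L'.comp L) where
  src := h.src
  tgt := h'.tgt
  cont := ContinuousAt.comp (g := g) (f := f) h'.cont h.cont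
  der := by
    have h0 : ψ.symm (ψ x) = x := ψ.left_inv h.src
    have hc : ContinuousAt (fun v => f (ψ.symm v)) (ψ x) := by
      refine ContinuousAt.comp (g := f) (f := ψ.symm) ?_ (ψ.continuousAt_symm (ψ.map_source h.src))
      rw [h0]
      exact h.cont
    have hs : ∀ᶠ v in 𝓝 (ψ x), f (ψ.symm v) ∈ φ.source := by
      apply hc.eventually_mem
      rw [h0]
      exact φ.open_source.mem_nhds h.tgt
    have h1 : HasFDerivAt (fun w => η (g (φ.symm w))) L' ((fun v => φ (f (ψ.symm v))) (ψ x)) := by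
      simp only [h0]
      exact h'.der
    have h2 := HasFDerivAt.comp (ψ x) h1 h.der
    refine h2.congr_of_eventuallyEq ?_
    filter_upwards [hs] with v hv
    simp only [Function.comp]
    rw [φ.left_inv hv]

theorem DA.unique {ψ φ : OpenPartialHomeomorph N (V n)} {f : N → N} {x : N}
    {L L' : V n →L[ℝ] V n} (h : DA ψ φ f x L) (h' : DA ψ φ f x L') : L = L' :=
  h.der.unique h'.der

theorem DA.congr {ψ φ : OpenPartialHomeomorph N (V n)} {f g : N → N} {x : N}
    {L : V n →L[ℝ] V n} (h : DA ψ φ f x L) (hfg : g =ᶠ[𝓝 x] f) : DA ψ φ g x L where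
  src := h.src
  tgt := by rw [hfg.eq_of_nhds]; exact h.tgt
  cont := h.cont.congr hfg.symm
  der := by
    refine h.der.congr_of_eventuallyEq ?_
    have h0 : ψ.symm (ψ x) = x := ψ.left_inv h.src
    have hc : Tendsto ψ.symm (𝓝 (ψ x)) (𝓝 x) := by
      have := ψ.continuousAt_symm (ψ.map_source h.src)
      unfold ContinuousAt at this
      rwa [h0] at this
    filter_upwards [hc.eventually hfg] with v hv
    rw [hv]

theorem DA.id (ψ : OpenPartialHomeomorph N (V n)) {x : N} (hx : x ∈ ψ.source) :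
    DA ψ ψ (fun y => y) x (ContinuousLinearMap.id ℝ (V n)) where
  src := hx
  tgt := hx
  cont := continuousAt_id
  der := by
    refine (hasFDerivAt_id (ψ x)).congr_of_eventuallyEq ?_
    filter_upwards [ψ.open_target.mem_nhds (ψ.map_source hx)] with v hv
    exact ψ.right_inv hv

variable [ChartedSpace (V n) N] [IsManifold (𝓡 n) ∞ N]

/-- differentiability in charts -/
theorem exists_DA {r : ℕ∞} (hr : 1 ≤ r) (G : N → N) (hG : ContMDiff (𝓡 n) (𝓡 n) r G)
    {χ₁ χ₂ : OpenPartialHomeomorph N (V n)} (h₁ : χ₁ ∈ IsManifold.maximalAtlas (𝓡 n) ∞ N)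
    (h₂ : χ₂ ∈ IsManifold.maximalAtlas (𝓡 n) ∞ N) {x : N} (hx : x ∈ χ₁.source)
    (hGx : G x ∈ χ₂.source) : ∃ L, DA χ₁ χ₂ G x L := by
  have hx' : χ₁ x ∈ χ₁.target := χ₁.map_source hx
  have h0 : χ₁.symm (χ₁ x) = x := χ₁.left_inv hx
  have h : ContDiffAt ℝ 1 (χ₂ ∘ G ∘ χ₁.symm) (χ₁ x) := by
    rw [← contMDiffAt_iff_contDiffAt]
    have m1 : ContMDiffAt (𝓡 n) (𝓡 n) 1 χ₁.symm (χ₁ x) :=
      ((contMDiffOn_symm_of_mem_maximalAtlas h₁).contMDiffAt
        (χ₁.open_target.mem_nhds hx')).of_le (by norm_cast)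
    have m2 : ContMDiffAt (𝓡 n) (𝓡 n) 1 G (χ₁.symm (χ₁ x)) :=
      (hG.contMDiffAt).of_le
        (show ((1 : ℕ∞) : WithTop ℕ∞) ≤ (r : WithTop ℕ∞) from WithTop.coe_le_coe.mpr hr)
    have m3 : ContMDiffAt (𝓡 n) (𝓡 n) 1 χ₂ (G (χ₁.symm (χ₁ x))) :=
      ((contMDiffOn_of_mem_maximalAtlas h₂).contMDiffAt
        (χ₂.open_source.mem_nhds (by rw [h0]; exact hGx))).of_le (by norm_cast)
    exact m3.comp (χ₁ x) (m2.comp (χ₁ x) m1)
  have hd := (h.differentiableAt (by norm_num)).hasFDerivAt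
  exact ⟨_, hx, hGx, hG.continuous.continuousAt, hd⟩

/-- a map whose derivative at a fixed point is a scalar in one chart has the same derivative in all
charts -/
theorem DA.scal {χ φ : OpenPartialHomeomorph N (V n)} (h₁ : χ ∈ IsManifold.maximalAtlas (𝓡 n) ∞ N)
    (h₂ : φ ∈ IsManifold.maximalAtlas (𝓡 n) ∞ N) {Θ : N → N} {x : N} {c : ℝ}
    (h : DA χ χ Θ x (c • ContinuousLinearMap.id ℝ (V n))) (hfix : Θ x = x) (hx : x ∈ φ.source) :
    DA φ φ Θ x (c • ContinuousLinearMap.id ℝ (V n)) := by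
  obtain ⟨L, hL⟩ := exists_DA (r := 1) le_rfl (fun y : N => y) contMDiff_id h₂ h₁ hx h.src
  obtain ⟨L', hL'⟩ := exists_DA (r := 1) le_rfl (fun y : N => y) contMDiff_id h₁ h₂ h.src hx
  have h3 : L'.comp L = ContinuousLinearMap.id ℝ (V n) :=
    (DA.comp (f := fun y => y) (g := fun y => y) hL hL').unique (DA.id φ hx)
  have h4 := DA.comp (f := fun y => y) (g := Θ) hL h
  have h5 : DA χ φ (fun y => y) (Θ x) L' := by rw [hfix]; exact hL'
  have h6 := DA.comp (f := Θ) (g := fun y => y) h4 h5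
  have h7 : L'.comp ((c • ContinuousLinearMap.id ℝ (V n)).comp L) =
      c • ContinuousLinearMap.id ℝ (V n) := by
    rw [ContinuousLinearMap.smul_comp, ContinuousLinearMap.id_comp, ContinuousLinearMap.comp_smul,
      h3]
  rw [h7] at h6
  exact h6

end

/-- a finite sum of small bumps with separated supports -/
theorem small_sum {n k : ℕ} {c : ℝ} (hc : 0 ≤ c) (I : Finset ℕ) (f : ℕ → V n → V n)
    (x : ℕ → V n) (ρ : ℕ → ℝ) (hs : ∀ i ∈ I, ContDiff ℝ ∞ (f i))
    (hb : ∀ i ∈ I, ∀ j ≤ k, ∀ y, ‖iteratedFDeriv ℝ j (f i) y‖ ≤ c)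
    (h0 : ∀ i ∈ I, ∀ y, ρ i ≤ ‖y - x i‖ → f i y = 0)
    (hsep : ∀ i ∈ I, ∀ j ∈ I, i ≠ j → ρ i + ρ j < ‖x i - x j‖)
    (hin : ∀ i ∈ I, ‖x i‖ + ρ i ≤ 1 / 2) : Small n k c (fun y => ∑ i ∈ I, f i y) where
  smooth := ContDiff.sum hs
  supp := by
    intro y hy
    refine Finset.sum_eq_zero fun i hi => h0 i hi y ?_
    have := norm_sub_norm_le y (x i)
    have := hin i hi
    linarith
  bd := by
    intro j hj y
    have hz : ∀ i ∈ I, ρ i < ‖y - x i‖ → ∀ᶠ y' in 𝓝 y, f i y' = 0 := by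
      intro i hi h1
      have hcont : ContinuousAt (fun y' => ‖y' - x i‖) y := by fun_prop
      filter_upwards [hcont.eventually (lt_mem_nhds h1)] with y' hy'
      exact h0 i hi y' hy'.le
    by_cases hex : ∃ i₀ ∈ I, ‖y - x i₀‖ ≤ ρ i₀
    · obtain ⟨i₀, hi₀, h1⟩ := hex
      have h2 : ∀ᶠ y' in 𝓝 y, ∀ i ∈ I, i ≠ i₀ → f i y' = 0 := by
        rw [Finset.eventually_all]
        intro i hi
        by_cases hne : i = i₀
        · exact Eventually.of_forall fun _ h => absurd hne h
        · have h3 := hsep i hi i₀ hi₀ hne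
          have h4 : ρ i < ‖y - x i‖ := by
            have h5 : ‖x i - x i₀‖ ≤ ‖y - x i‖ + ‖y - x i₀‖ := by
              have h6 : x i - x i₀ = (y - x i₀) - (y - x i) := by abel
              rw [h6]
              have := norm_sub_le (y - x i₀) (y - x i)
              linarith
            linarith
          exact (hz i hi h4).mono fun _ h _ => h
      have h3 : (fun y => ∑ i ∈ I, f i y) =ᶠ[𝓝 y] f i₀ := by
        filter_upwards [h2] with y' hy'
        exact Finset.sum_eq_single_of_mem i₀ hi₀ hy'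
      rw [(EventuallyEq.iteratedFDeriv ℝ h3 j).eq_of_nhds]
      exact hb i₀ hi₀ j hj y
    · push Not at hex
      have h2 : ∀ᶠ y' in 𝓝 y, ∀ i ∈ I, f i y' = 0 := by
        rw [Finset.eventually_all]
        intro i hi
        exact hz i hi (hex i hi)
      have h3 : (fun y => ∑ i ∈ I, f i y) =ᶠ[𝓝 y] fun _ => 0 := by
        filter_upwards [h2] with y' hy'
        exact Finset.sum_eq_zero hy'
      rw [(EventuallyEq.iteratedFDeriv ℝ h3 j).eq_of_nhds]
      have h4 : iteratedFDeriv ℝ j (fun _ : V n => (0 : V n)) y = 0 := by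
        have := congrFun (iteratedFDeriv_zero_fun (𝕜 := ℝ) (E := V n) (F := V n) (n := j)) y
        simpa using this
      rw [h4, norm_zero]
      exact hc

/-- the coefficients -/
theorem prod_cc (m : ℕ) (hm : 1 ≤ m) (I : Finset ℕ) (hI : ∀ i ∈ I, i < m) (t : ℕ → ℝ) :
    ∏ i ∈ Finset.range m, (1 + if (i + 1) % m ∈ I then t ((i + 1) % m) else 0) =
      ∏ i ∈ I, (1 + t i) := by
  obtain ⟨m', rfl⟩ : ∃ m', m = m' + 1 := ⟨m - 1, by omega⟩
  have h1 : ∏ i ∈ Finset.range (m' + 1), (1 + if (i + 1) % (m' + 1) ∈ I then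
      t ((i + 1) % (m' + 1)) else 0) = ∏ i ∈ Finset.range (m' + 1), (1 + if i ∈ I then t i else 0) := by
    rw [Finset.prod_range_succ, Finset.prod_range_succ' (fun i => 1 + if i ∈ I then t i else 0),
      Nat.mod_self]
    congr 1
    refine Finset.prod_congr rfl fun i hi => ?_
    have hi' := Finset.mem_range.1 hi
    rw [Nat.mod_eq_of_lt (by omega)]
  rw [h1]
  have h2 : ∀ i, (1 + if i ∈ I then t i else 0) = if i ∈ I then 1 + t i else 1 := by
    intro i
    split_ifs
    · rfl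
    · rw [add_zero]
  simp only [h2]
  rw [Finset.prod_ite_mem]
  congr 1
  exact Finset.inter_eq_right.2 fun i hi => Finset.mem_range.2 (hI i hi)

theorem t (hB : S_BUMP2) : S_MULT.{u} := by
  classical
  intro n N _ _ _ _ _ r hr F χ z₀ hχ U hU hFU
  obtain ⟨k, hk1, hkr, κ₀, hκ₀, hN⟩ := t_NBHD n N r hr ℝ (fun _ => F) (isFam_const F) χ z₀ hχ
    U hU hFU
  obtain ⟨C, hC, hB'⟩ := hB n k hk1
  have h2k : (0 : ℝ) < 2 ^ k := by positivity
  obtain ⟨κ, k0, k1, k2, k3⟩ : ∃ κ : ℝ, 0 < κ ∧ κ ≤ 1 / 32 ∧ C * (κ * 2 ^ k) ≤ κ₀ ∧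
      C * (κ * 2 ^ k) ≤ 1 / 2 := by
    refine ⟨min (1 / 32) (min (κ₀ / (C * 2 ^ k)) (1 / 2 / (C * 2 ^ k))), by positivity,
      min_le_left _ _, ?_, ?_⟩
    · have h1 := (min_le_right (1 / 32 : ℝ) (min (κ₀ / (C * 2 ^ k)) (1 / 2 / (C * 2 ^ k)))).trans
        (min_le_left _ _)
      rw [le_div_iff₀ (by positivity)] at h1
      linarith
    · have h1 := (min_le_right (1 / 32 : ℝ) (min (κ₀ / (C * 2 ^ k)) (1 / 2 / (C * 2 ^ k)))).trans
        (min_le_right _ _)
      rw [le_div_iff₀ (by positivity)] at h1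
      linarith
  refine ⟨k, hk1, hkr, κ, k0, ?_⟩
  intro m p hm hp I ρ t hI
  -- the bumps
  have hbump : ∀ i, ∃ b : V n → V n, i ∈ I → ContDiff ℝ ∞ b ∧
      (∀ j ≤ k, ∀ y, ‖iteratedFDeriv ℝ j b y‖ ≤ C * (κ * 2 ^ k)) ∧
      (∀ᶠ y in 𝓝 (0 : V n), b y = t i • y) ∧ ∀ y, ρ i / 2 ≤ ‖y‖ → b y = 0 := by
    intro i
    by_cases hi : i ∈ I
    · obtain ⟨-, -, -, hρ, hρκ, hti, -⟩ := hI i hi
      obtain ⟨b, hb1, hb2, hb3⟩ := hB' (ρ i / 2) (by linarith) (by linarith) 0
        (by rw [norm_zero]; linarith) (t i • ContinuousLinearMap.id ℝ (V n))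
      refine ⟨b, fun _ => ⟨hb1.smooth, fun j hj y => (hb1.bd j hj y).trans ?_, ?_, hb3⟩⟩
      · refine mul_le_mul_of_nonneg_left ?_ hC.le
        rw [norm_zero, zero_div, zero_add, div_le_iff₀ (by positivity), norm_smul]
        have h1 : ‖ContinuousLinearMap.id ℝ (V n)‖ ≤ 1 := ContinuousLinearMap.norm_id_le
        calc ‖t i‖ * ‖ContinuousLinearMap.id ℝ (V n)‖ ≤ ‖t i‖ * 1 :=
              mul_le_mul_of_nonneg_left h1 (norm_nonneg _)
          _ = |t i| := by rw [mul_one, Real.norm_eq_abs]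
          _ ≤ κ * ρ i ^ (k - 1) := hti
          _ ≤ κ * 2 ^ k * (ρ i / 2) ^ (k - 1) := by
              have h3 : (2 : ℝ) ^ k = 2 * 2 ^ (k - 1) := by
                conv_lhs => rw [show k = (k - 1) + 1 by omega]
                rw [pow_succ]; ring
              have h4 : (2 : ℝ) ^ (k - 1) * (ρ i / 2) ^ (k - 1) = ρ i ^ (k - 1) := by
                rw [← mul_pow]
                congr 1
                ring
              have h5 : κ * 2 ^ k * (ρ i / 2) ^ (k - 1) = 2 * (κ * ρ i ^ (k - 1)) := by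
                rw [h3, ← h4]; ring
              rw [h5]
              have h6 : 0 ≤ κ * ρ i ^ (k - 1) := by positivity
              linarith
      · filter_upwards [hb2] with y hy
        rw [hy]
        simp
    · exact ⟨0, fun h => absurd h hi⟩
  choose b hb using hbump
  obtain ⟨x, hx⟩ : ∃ x : ℕ → V n, x = fun i => χ (F^[i] p) := ⟨_, rfl⟩
  have hxi : ∀ i, x i = χ (F^[i] p) := fun i => by rw [hx]
  have hsm : Small n k (C * (κ * 2 ^ k)) (fun y => ∑ i ∈ I, b i (y - x i)) := by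
    refine small_sum (by positivity) I (fun i y => b i (y - x i)) x (fun i => ρ i / 2) ?_ ?_ ?_ ?_ ?_
    · intro i hi
      exact (hb i hi).1.comp (contDiff_id.sub contDiff_const)
    · intro i hi j hj y
      have h1 : iteratedFDeriv ℝ j (fun y => b i (y - x i)) y =
          iteratedFDeriv ℝ j (b i) (y - x i) := by
        rw [iteratedFDeriv_comp_sub]
      rw [h1]
      exact (hb i hi).2.1 j hj _
    · intro i hi y hy
      exact (hb i hi).2.2.2 _ hy
    · intro i hi j hj hij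
      obtain ⟨hi1, hi2, -, hi3, -, -, hi4⟩ := hI i hi
      obtain ⟨hj1, hj2, -, hj3, -, -, hj4⟩ := hI j hj
      have h1 := hi4 j hj1 (Ne.symm hij) hj2
      have h2 := hj4 i hi1 hij hi2
      rw [← hxi, ← hxi] at h1 h2
      rw [norm_sub_rev] at h1
      linarith
    · intro i hi
      obtain ⟨-, -, h1, h2, h3, -, -⟩ := hI i hi
      rw [hxi]
      linarith
  obtain ⟨v, hv⟩ : ∃ v : V n → V n, v = fun y => ∑ i ∈ I, b i (y - x i) := ⟨_, rfl⟩
  rw [← hv] at hsm
  obtain ⟨Θ, hΘ⟩ := Pool.Agent.W428.SC.push n N r χ z₀ hχ v (small_mono hsm hk1 k3)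
  have hGU := hN 0 v Θ (by rw [norm_zero]; exact hκ₀) (small_mono hsm le_rfl k2) hΘ
  have hG : ∀ y, (F.trans Θ) y = Θ (F y) := fun y => rfl
  -- the bumps near the points of the orbit
  obtain ⟨s, hs⟩ : ∃ s : ℕ → ℝ, s = fun j => if j ∈ I then t j else 0 := ⟨_, rfl⟩
  have hgerm : ∀ j < m, F^[j] p ∈ χ.source → ∀ᶠ y in 𝓝 (x j), v y = s j • (y - x j) := by
    intro j hj hjs
    have h1 : ∀ᶠ y in 𝓝 (x j), ∀ i ∈ I, i ≠ j → b i (y - x i) = 0 := by
      rw [Finset.eventually_all]
      intro i hi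
      by_cases hij : i = j
      · exact Eventually.of_forall fun _ h => absurd hij h
      · obtain ⟨hi1, hi2, -, hi3, -, -, hi4⟩ := hI i hi
        have h2 := hi4 j hj (Ne.symm hij) hjs
        rw [← hxi, ← hxi] at h2
        have h3 : ρ i / 2 < ‖x j - x i‖ := by linarith
        have hcont : ContinuousAt (fun y' => ‖y' - x i‖) (x j) := by fun_prop
        filter_upwards [hcont.eventually (lt_mem_nhds h3)] with y hy _
        exact (hb i hi).2.2.2 _ hy.le
    by_cases hjI : j ∈ I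
    · have h4 : ∀ᶠ y in 𝓝 (x j), b j (y - x j) = t j • (y - x j) := by
        have hcont : ContinuousAt (fun y' => y' - x j) (x j) := by fun_prop
        have h5 : Tendsto (fun y' => y' - x j) (𝓝 (x j)) (𝓝 0) := by
          have := hcont.tendsto
          rwa [sub_self] at this
        exact h5.eventually (hb j hjI).2.2.1
      filter_upwards [h1, h4] with y hy hy4
      rw [hv, hs]
      simp only [if_pos hjI]
      rw [← hy4]
      exact Finset.sum_eq_single_of_mem j hjI hy
    · filter_upwards [h1] with y hy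
      rw [hv, hs]
      simp only [if_neg hjI]
      rw [zero_smul]
      exact Finset.sum_eq_zero fun i hi => hy i hi (fun h => hjI (h ▸ hi))
  -- the map `Θ` near the points of the orbit
  have hfixΘ : ∀ j < m, Θ (F^[j] p) = F^[j] p := by
    intro j hj
    by_cases hjs : F^[j] p ∈ χ.source
    · obtain ⟨a, b1⟩ := hΘ.1 _ hjs
      have h1 := (hgerm j hj hjs).self_of_nhds
      rw [sub_self, smul_zero, hxi] at h1
      rw [h1, add_zero] at b1
      exact χ.injOn a hjs b1
    · exact hΘ.2 _ hjs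
  have hDΘ : ∀ j < m, ∀ φ ∈ IsManifold.maximalAtlas (𝓡 n) ∞ N, F^[j] p ∈ φ.source →
      DA φ φ Θ (F^[j] p) ((1 + s j) • ContinuousLinearMap.id ℝ (V n)) := by
    intro j hj φ hφ hjφ
    by_cases hjs : F^[j] p ∈ χ.source
    · refine DA.scal hχ.mem hφ ⟨hjs, ?_, Θ.continuous.continuousAt, ?_⟩ (hfixΘ j hj) hjφ
      · rw [hfixΘ j hj]; exact hjs
      · have h1 : HasFDerivAt (fun y : V n => y + s j • (y - x j))
            ((1 + s j) • ContinuousLinearMap.id ℝ (V n)) (χ (F^[j] p)) := by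
          have h2 := (hasFDerivAt_id (𝕜 := ℝ) (χ (F^[j] p))).add
            (((hasFDerivAt_id (𝕜 := ℝ) (χ (F^[j] p))).sub_const (x j)).const_smul (s j))
          have h3 : (1 + s j) • ContinuousLinearMap.id ℝ (V n) =
              ContinuousLinearMap.id ℝ (V n) + s j • ContinuousLinearMap.id ℝ (V n) := by
            refine ContinuousLinearMap.ext fun y => ?_
            change (1 + s j) • y = y + s j • y
            rw [add_smul, one_smul]
          rw [h3]
          exact h2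
        refine h1.congr_of_eventuallyEq ?_
        have h4 := hgerm j hj hjs
        rw [hxi] at h4
        filter_upwards [h4, χ.open_target.mem_nhds (χ.map_source hjs)] with y hy hyt
        have h5 : χ (Θ (χ.symm y)) = χ (χ.symm y) + v (χ (χ.symm y)) :=
          (hΘ.1 _ (χ.map_target hyt)).2
        rw [h5, χ.right_inv hyt, hy, hxi]
    · have hsj : s j = 0 := by
        rw [hs]
        exact if_neg fun h => hjs (hI j h).2.1
      rw [hsj, add_zero, one_smul]
      refine (DA.id φ hjφ).congr ?_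
      have hsub : closedBall (0 : V n) (1 / 2) ⊆ χ.target :=
        (closedBall_subset_closedBall (by norm_num)).trans hχ.ball
      have hK : IsCompact (χ.symm '' closedBall (0 : V n) (1 / 2)) :=
        (isCompact_closedBall _ _).image_of_continuousOn (χ.continuousOn_symm.mono hsub)
      have hjK : F^[j] p ∉ χ.symm '' closedBall (0 : V n) (1 / 2) := by
        rintro ⟨y, hy, hyp⟩
        exact hjs (hyp ▸ χ.map_target (hsub hy))
      filter_upwards [hK.isClosed.isOpen_compl.mem_nhds hjK] with y hy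
      by_cases hys : y ∈ χ.source
      · obtain ⟨a, b1⟩ := hΘ.1 _ hys
        have h1 : 1 / 2 ≤ ‖χ y‖ := by
          by_contra hcon
          push Not at hcon
          exact hy ⟨χ y, mem_closedBall_zero_iff.2 hcon.le, χ.left_inv hys⟩
        rw [hsm.supp _ h1, add_zero] at b1
        exact χ.injOn a hys b1
      · exact hΘ.2 _ hys
  have hper : ∀ j, F^[j % m] p = F^[j] p := fun j =>
    Function.IsPeriodicPt.iterate_mod_apply (f := F) (x := p) (n := m) hp j
  have hmod : ∀ j, j % m < m := fun j => Nat.mod_lt _ (by omega)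
  refine ⟨F.trans Θ, hGU, ?_, ?_⟩
  · have key : ∀ j, (⇑(F.trans Θ))^[j] p = F^[j] p := by
      intro j
      induction j with
      | zero => rfl
      | succ j ih =>
        rw [Function.iterate_succ_apply', ih, hG, ← Function.iterate_succ_apply' F, ← hper (j + 1)]
        exact hfixΘ _ (hmod _)
    rw [key, hp]
  intro ψ hψ hpψ D hD
  obtain ⟨φ, hφ⟩ : ∃ φ : ℕ → OpenPartialHomeomorph N (V n), φ = fun j =>
    if F^[j] p = p then ψ else chartAt (V n) (F^[j] p) := ⟨_, rfl⟩
  have hφ0 : φ 0 = ψ := by rw [hφ]; simp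
  have hφm : φ m = ψ := by rw [hφ]; simp [hp]
  have hφ1 : ∀ j, φ j ∈ IsManifold.maximalAtlas (𝓡 n) ∞ N := by
    intro j
    rw [hφ]
    by_cases h : F^[j] p = p
    · simp only [if_pos h]; exact hψ
    · simp only [if_neg h]; exact IsManifold.chart_mem_maximalAtlas _
  have hφ2 : ∀ j, F^[j] p ∈ (φ j).source := by
    intro j
    rw [hφ]
    by_cases h : F^[j] p = p
    · simp only [if_pos h]; rw [h]; exact hpψ
    · simp only [if_neg h]; exact mem_chart_source _ _
  have key : ∀ j, ∃ L : V n →L[ℝ] V n, DA ψ (φ j) (F^[j]) p L ∧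
      DA ψ (φ j) ((⇑(F.trans Θ))^[j]) p ((∏ i ∈ Finset.range j, (1 + s ((i + 1) % m))) • L) ∧
      (⇑(F.trans Θ))^[j] p = F^[j] p := by
    intro j
    induction j with
    | zero =>
      refine ⟨ContinuousLinearMap.id ℝ (V n), ?_, ?_, rfl⟩
      · rw [hφ0]; exact DA.id ψ hpψ
      · rw [hφ0, Finset.prod_range_zero, one_smul]; exact DA.id ψ hpψ
    | succ j ih =>
      obtain ⟨L, h1, h2, h3⟩ := ih
      have e1 : F^[j + 1] = fun y => F (F^[j] y) := funext fun y => Function.iterate_succ_apply' F j y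
      have e2 : (⇑(F.trans Θ))^[j + 1] = fun y => Θ (F ((⇑(F.trans Θ))^[j] y)) :=
        funext fun y => Function.iterate_succ_apply' _ j y
      have e3 : F (F^[j] p) = F^[j + 1] p := (Function.iterate_succ_apply' F j p).symm
      obtain ⟨A, hA⟩ := exists_DA hr F F.contMDiff (hφ1 j) (hφ1 (j + 1)) (hφ2 j)
        (by rw [e3]; exact hφ2 (j + 1))
      have h4 := DA.comp (f := F^[j]) (g := F) h1 hA
      have hA' : DA (φ j) (φ (j + 1)) F ((⇑(F.trans Θ))^[j] p) A := by rw [h3]; exact hA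
      have h5 := DA.comp (f := (⇑(F.trans Θ))^[j]) (g := F) h2 hA'
      have h6 := hDΘ ((j + 1) % m) (hmod _) (φ (j + 1)) (hφ1 _) (by rw [hper]; exact hφ2 _)
      have h7 : DA (φ (j + 1)) (φ (j + 1)) Θ (F ((⇑(F.trans Θ))^[j] p))
          ((1 + s ((j + 1) % m)) • ContinuousLinearMap.id ℝ (V n)) := by
        rw [h3, e3, ← hper (j + 1)]
        exact h6
      have h8 := DA.comp (f := fun y => F ((⇑(F.trans Θ))^[j] y)) (g := Θ) h5 h7
      refine ⟨A.comp L, ?_, ?_, ?_⟩
      · rw [e1]; exact h4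
      · rw [e2]
        have h9 : ((1 + s ((j + 1) % m)) • ContinuousLinearMap.id ℝ (V n)).comp
            (A.comp ((∏ i ∈ Finset.range j, (1 + s ((i + 1) % m))) • L)) =
            (∏ i ∈ Finset.range (j + 1), (1 + s ((i + 1) % m))) • A.comp L := by
          rw [Finset.prod_range_succ, ContinuousLinearMap.smul_comp, ContinuousLinearMap.id_comp,
            ContinuousLinearMap.comp_smul, smul_smul, mul_comm]
        rw [← h9]
        exact h8
      · rw [e2]
        change Θ (F ((⇑(F.trans Θ))^[j] p)) = _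
        rw [h3, e3, ← hper (j + 1)]
        exact hfixΘ _ (hmod _)
  obtain ⟨L, h1, h2, -⟩ := key m
  rw [hφm] at h1 h2
  have hLD : L = D := h1.der.unique hD
  have hprod : ∏ i ∈ Finset.range m, (1 + s ((i + 1) % m)) = ∏ i ∈ I, (1 + t i) := by
    rw [hs]
    exact prod_cc m hm I (fun i hi => (hI i hi).1) t
  rw [hprod, hLD] at h2
  exact h2.der

end Pool.Agent.N813.OF.MULT
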