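import Pool.Agent.N813.OF.Stm

/-!
# NEU: no isometric directions (project OF)
-/

set_option autoImplicit false

open scoped Manifold ContDiff Topology
open MeasureTheory Filter Set Metric

universe u v

namespace Pool.Agent.N813.OF.NEU

open Pool.Agent.H718R2.G Pool.Agent.W564.SC Pool.Agent.N813.EM Pool.Agent.Y368.CL
  Pool.Agent.TH80.OMS Pool.Agent.N813.OE Pool.Agent.N813.OF

/-- A linear map bounded below has a left inverse of norm at most `1 / c`. -/
theorem leftInv {n d : ℕ} (J : V d →L[ℝ] V n) {c : ℝ} (hc : 0 < c)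
    (h : ∀ e, c * ‖e‖ ≤ ‖J e‖) : ∃ P : V n →L[ℝ] V d, (∀ e, P (J e) = e) ∧ ‖P‖ ≤ 1 / c := by
  have hinj : Function.Injective (J : V d →ₗ[ℝ] V n) := by
    rw [injective_iff_map_eq_zero]
    intro e he
    have h1 := h e
    have h2 : J e = 0 := he
    rw [h2, norm_zero] at h1
    have h3 : ‖e‖ ≤ 0 := by
      by_contra h4
      push Not at h4
      have := mul_pos hc h4
      linarith
    exact norm_le_zero_iff.1 h3
  let R : Submodule ℝ (V n) := LinearMap.range (J : V d →ₗ[ℝ] V n)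
  let E : V d ≃ₗ[ℝ] R := LinearEquiv.ofInjective (J : V d →ₗ[ℝ] V n) hinj
  let P₀ : V n →ₗ[ℝ] V d := E.symm.toLinearMap ∘ₗ (R.orthogonalProjectionOnto : V n →ₗ[ℝ] R)
  have hP : ∀ v, ‖P₀ v‖ ≤ 1 / c * ‖v‖ := by
    intro v
    have h1 := h (P₀ v)
    have h2 : J (P₀ v) = ((R.orthogonalProjectionOnto v : R) : V n) := by
      have h3 : (E (E.symm (R.orthogonalProjectionOnto v)) : V n) = J (P₀ v) := rfl
      rw [← h3, E.apply_symm_apply]
    rw [h2] at h1
    have h4 : ‖((R.orthogonalProjectionOnto v : R) : V n)‖ ≤ ‖v‖ := by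
      have := R.norm_orthogonalProjectionOnto_apply_le v
      simpa using this
    rw [div_mul_eq_mul_div, one_mul, le_div_iff₀ hc]
    linarith
  refine ⟨P₀.mkContinuous (1 / c) hP, ?_, LinearMap.mkContinuous_norm_le _ (by positivity) _⟩
  intro e
  rw [LinearMap.mkContinuous_apply]
  have h1 : (J e : V n) = ((E e : R) : V n) := rfl
  show E.symm (R.orthogonalProjectionOnto (J e)) = e
  rw [h1, Submodule.orthogonalProjectionOnto_mem_subspace_eq_self, E.symm_apply_apply]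

theorem t (hE : S_EIGI) : S_NEU.{u} := by
  intro n N _ _ _ _ F hF hRob hLip hDer K z₀ hPoly hNeu
  obtain ⟨χ, d, J, C, θ, δ, c, hχ, hd, hθ, hδ, hc, hlow, hHol, hiso⟩ := hNeu
  obtain ⟨k, hk, κ, hκ, hrob⟩ := hRob χ z₀ hχ
  obtain ⟨L₀, hL₀, hL0⟩ := hLip χ z₀ hχ
  obtain ⟨L, hL1, hL⟩ : ∃ L : ℝ, 1 ≤ L ∧ ∀ y ∈ χ.source, ∀ y' ∈ χ.source, ‖χ y‖ ≤ 1 / 2 →
      ‖χ y'‖ ≤ 1 / 2 → dist y y' ≤ L * ‖χ y - χ y'‖ ∧ ‖χ y - χ y'‖ ≤ L * dist y y' := by
    refine ⟨max L₀ 1, le_max_right _ _, fun y hy y' hy' h1 h2 => ?_⟩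
    obtain ⟨h3, h4⟩ := hL0 y hy y' hy' h1 h2
    exact ⟨h3.trans (mul_le_mul_of_nonneg_right (le_max_left _ _) (norm_nonneg _)),
      h4.trans (mul_le_mul_of_nonneg_right (le_max_left _ _) dist_nonneg)⟩
  obtain ⟨C', hC', hCC'⟩ : ∃ C' : ℝ, 0 < C' ∧ C ≤ C' :=
    ⟨max C 1, by positivity, le_max_left _ _⟩
  have hL0' : 0 < L := by linarith
  obtain ⟨A, hA⟩ := exists_nat_ge (max ((k : ℝ) + 1) (((k : ℝ) + 1) / θ))
  have hA1 : k + 1 ≤ A := by
    have := (le_max_left _ _).trans hA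
    exact_mod_cast this
  have hA2 : (k : ℝ) + 1 ≤ A * θ := by
    have := (le_max_right _ _).trans hA
    rwa [div_le_iff₀ hθ] at this
  -- the neighbourhood
  have hnear : ∀ᶠ y in 𝓝 z₀, y ∈ χ.source ∧ ‖χ y‖ < min (min κ δ) (1 / 4) := by
    have h5 : ∀ᶠ y in 𝓝 z₀, ‖χ y‖ < min (min κ δ) (1 / 4) := by
      refine (χ.continuousAt hχ.src).norm.eventually_lt_const ?_
      beta_reduce
      rw [hχ.zero, norm_zero]
      positivity
    filter_upwards [χ.open_source.mem_nhds hχ.src, h5] with y h6 h7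
    exact ⟨h6, h7⟩
  obtain ⟨η₀, hη₀, hball⟩ := Metric.eventually_nhds_iff.1 hnear
  have hden1 : 0 < L * (4 * L) ^ k := by positivity
  have hden2 : 0 < C' * L ^ θ * (4 * L) ^ (k - 1) := by positivity
  obtain ⟨η, hη, hηa, hηb, hηc, hηd, hηe⟩ : ∃ η : ℝ, 0 < η ∧ η ≤ η₀ / 2 ∧ η ≤ 1 / 2 ∧ η ≤ κ ∧
      η ≤ κ / (L * (4 * L) ^ k) ∧ η ≤ κ * c / (C' * L ^ θ * (4 * L) ^ (k - 1)) := by
    refine ⟨min (η₀ / 2) (min (1 / 2) (min κ (min (κ / (L * (4 * L) ^ k))
      (κ * c / (C' * L ^ θ * (4 * L) ^ (k - 1)))))), ?_, ?_, ?_, ?_, ?_, ?_⟩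
    · positivity
    · exact min_le_left _ _
    · exact (min_le_right _ _).trans (min_le_left _ _)
    · exact (min_le_right _ _).trans ((min_le_right _ _).trans (min_le_left _ _))
    · exact (min_le_right _ _).trans ((min_le_right _ _).trans ((min_le_right _ _).trans
        (min_le_left _ _)))
    · exact (min_le_right _ _).trans ((min_le_right _ _).trans ((min_le_right _ _).trans
        (min_le_right _ _)))
  obtain ⟨m, z, ρ, hm, hzK, hFK, hzd, hρ, hρη, hret, hfar⟩ := hPoly A η hη 1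
  have hρ1 : ρ ≤ 1 / 2 := (hρη.trans_le hηb).le
  have hρA : ρ ^ A ≤ ρ ^ (k + 1) := pow_le_pow_of_le_one hρ.le (by linarith) hA1
  have hρk : ρ ^ (k + 1) ≤ ρ := by
    have := pow_le_pow_of_le_one hρ.le (by linarith : ρ ≤ 1) (show 1 ≤ k + 1 by omega)
    simpa using this
  obtain ⟨hz1, hz2⟩ := hball (show dist z z₀ < η₀ by linarith)
  obtain ⟨hf1, hf2⟩ := hball (show dist (F^[m] z) z₀ < η₀ by
    have := dist_triangle (F^[m] z) z z₀
    linarith)
  have hz3 : ‖χ z‖ < κ := hz2.trans_le ((min_le_left _ _).trans (min_le_left _ _))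
  have hz4 : ‖χ z‖ < δ := hz2.trans_le ((min_le_left _ _).trans (min_le_right _ _))
  have hz5 : ‖χ z‖ < 1 / 4 := hz2.trans_le (min_le_right _ _)
  have hf4 : ‖χ (F^[m] z)‖ < δ := hf2.trans_le ((min_le_left _ _).trans (min_le_right _ _))
  have hf5 : ‖χ (F^[m] z)‖ < 1 / 4 := hf2.trans_le (min_le_right _ _)
  have hw : ‖χ (F^[m] z) - χ z‖ ≤ L * ρ ^ A :=
    (hL _ hf1 _ hz1 (by linarith) (by linarith)).2.trans
      (mul_le_mul_of_nonneg_left hret hL0'.le)
  have hρ' : 0 < ρ / (4 * L) := by positivity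
  have hρ'ρ : ρ / (4 * L) ≤ ρ := div_le_self hρ.le (by linarith)
  have hρ'4 : ρ / (4 * L) ≤ ρ / 4 := by
    apply div_le_div_of_nonneg_left hρ.le (by norm_num)
    linarith
  have hclose : CloseRet F χ k κ (ρ / (4 * L)) m z := by
    refine ⟨hz1, hz3, hρ', by linarith, hm, hf1, ?_, ?_⟩
    · refine hw.trans ?_
      rw [div_pow, mul_div_assoc', le_div_iff₀ (by positivity)]
      have h1 : ρ * (L * (4 * L) ^ k) ≤ κ := by
        rw [← le_div_iff₀ hden1]
        linarith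
      calc L * ρ ^ A * (4 * L) ^ k ≤ L * ρ ^ (k + 1) * (4 * L) ^ k := by gcongr
        _ = ρ * (L * (4 * L) ^ k) * ρ ^ k := by ring
        _ ≤ κ * ρ ^ k := by gcongr
    · intro i hi him hsrc
      by_cases h1 : ‖χ (F^[i] z)‖ ≤ 1 / 2
      · have h2 := (hL _ hsrc _ hz1 h1 (by linarith)).1
        have h3 := hfar i hi him
        have h4 : ρ / L ≤ ‖χ (F^[i] z) - χ z‖ := by
          rw [div_le_iff₀ hL0']
          linarith
        have h5 : 2 * (ρ / (4 * L)) ≤ ρ / L := by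
          rw [show 2 * (ρ / (4 * L)) = ρ / L / 2 by field_simp; norm_num]
          have : 0 < ρ / L := by positivity
          linarith
        linarith
      · push Not at h1
        have h2 := norm_sub_norm_le (χ (F^[i] z)) (χ z)
        linarith
  obtain ⟨D, hD⟩ := hDer χ z₀ hχ m z hz1 hf1
  obtain ⟨O, hO⟩ := hiso z hzK m hm hz1 hf1 hz4 hf4
  have hOD := hO D hD
  obtain ⟨P, hP, hPn⟩ := leftInv (J (F^[m] z)) hc (hlow _ hFK hf1 hf4)
  have hJJ : ‖J z - J (F^[m] z)‖ ≤ C' * (L * ρ ^ A) ^ θ := by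
    have h1 := hHol z hzK _ hFK hz1 hf1 hz4 hf4
    rw [norm_sub_rev (χ z)] at h1
    refine h1.trans ((mul_le_mul_of_nonneg_right hCC' (by positivity)).trans ?_)
    exact mul_le_mul_of_nonneg_left (Real.rpow_le_rpow (norm_nonneg _) hw hθ.le) hC'.le
  have hpow : (L * ρ ^ A) ^ θ ≤ L ^ θ * (ρ * ρ ^ (k - 1)) := by
    rw [Real.mul_rpow hL0'.le (by positivity)]
    refine mul_le_mul_of_nonneg_left ?_ (by positivity)
    rw [← Real.rpow_natCast ρ A, ← Real.rpow_mul hρ.le]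
    calc ρ ^ ((A : ℝ) * θ) ≤ ρ ^ ((k : ℝ) + 1) :=
          Real.rpow_le_rpow_of_exponent_ge hρ (by linarith) hA2
      _ = ρ ^ (k + 1) := by exact_mod_cast Real.rpow_natCast ρ (k + 1)
      _ ≤ ρ ^ (k - 1 + 1) := pow_le_pow_of_le_one hρ.le (by linarith) (by omega)
      _ = ρ * ρ ^ (k - 1) := by ring
  obtain ⟨T, hT1, hT2⟩ : ∃ T : V n →L[ℝ] V n, (∀ e, T (J (F^[m] z) e) = J z e) ∧
      ‖T - 1‖ ≤ κ * (ρ / (4 * L)) ^ (k - 1) := by
    refine ⟨1 + (J z - J (F^[m] z)).comp P, fun e => ?_, ?_⟩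
    · simp [hP e]
    · rw [add_sub_cancel_left]
      refine (ContinuousLinearMap.opNorm_comp_le _ _).trans ?_
      have h1 : ‖J z - J (F^[m] z)‖ * ‖P‖ ≤ C' * (L ^ θ * (ρ * ρ ^ (k - 1))) * (1 / c) := by
        refine mul_le_mul (hJJ.trans ?_) hPn (norm_nonneg _) (by positivity)
        exact mul_le_mul_of_nonneg_left hpow hC'.le
      refine h1.trans ?_
      have h2 : ρ * (C' * L ^ θ * (4 * L) ^ (k - 1)) ≤ κ * c := by
        rw [← le_div_iff₀ hden2]
        linarith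
      rw [div_pow, ← mul_div_assoc κ, le_div_iff₀ (by positivity), mul_one_div,
        div_mul_eq_mul_div, div_le_iff₀ hc]
      calc C' * (L ^ θ * (ρ * ρ ^ (k - 1))) * (4 * L) ^ (k - 1)
          = ρ * (C' * L ^ θ * (4 * L) ^ (k - 1)) * ρ ^ (k - 1) := by ring
        _ ≤ κ * c * ρ ^ (k - 1) := by gcongr
        _ = κ * ρ ^ (k - 1) * c := by ring
  have hinj : Function.Injective (J z) := by
    rw [injective_iff_map_eq_zero]
    intro e he
    have h1 := hlow z hzK hz1 hz4 e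
    rw [he, norm_zero] at h1
    have h3 : ‖e‖ ≤ 0 := by
      by_contra h4
      push Not at h4
      have := mul_pos hc h4
      linarith
    exact norm_le_zero_iff.1 h3
  obtain ⟨μ, hμ, hEig⟩ := hE n d (T.comp D) (J z) O hd hinj (fun e => by
    rw [ContinuousLinearMap.comp_apply, hOD e, hT1])
  exact hrob _ m z hclose D hD T hT2 μ hEig hμ

end Pool.Agent.N813.OF.NEU
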