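import Pool.Agent.N813.OF.Stm

/-!
# Project OF: closing with prescribed derivative

(helper403 for helper813; follows `lclosable_of_retK` of `Pool/Agent/R773/FC/Loc.lean`.)
-/

set_option autoImplicit false
set_option linter.unusedSectionVars false

open scoped Manifold ContDiff Topology
open Filter Set Metric

universe u

namespace Pool.Agent.N813.OF.PERT

open Pool.Agent.H718R2.G Pool.Agent.W564.SC Pool.Agent.R773.FC Pool.Agent.TH80.OMS

/-- closed balls in charts are closed -/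
lemma closed_ball {n : ℕ} {N : Type u} [TopologicalSpace N] [T2Space N] [ChartedSpace (V n) N]
    {χ : OpenPartialHomeomorph N (V n)} {z₀ : N} (hχ : GoodChart n N χ z₀) {v : V n} {ρ : ℝ}
    (hv : ‖v‖ + ρ ≤ 1) : IsClosed {y : N | y ∈ χ.source ∧ ‖χ y - v‖ ≤ ρ} := by
  have hsub : closedBall v ρ ⊆ χ.target := by
    intro x hx
    apply hχ.ball
    rw [mem_closedBall, dist_zero_right]
    rw [mem_closedBall, dist_eq_norm] at hx
    have := norm_le_norm_add_norm_sub' x v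
    linarith
  have h1 : {y : N | y ∈ χ.source ∧ ‖χ y - v‖ ≤ ρ} = χ.symm '' closedBall v ρ := by
    ext y
    constructor
    · rintro ⟨h1, h2⟩
      exact ⟨χ y, by rw [mem_closedBall, dist_eq_norm]; exact h2, χ.left_inv h1⟩
    · rintro ⟨x, hx, rfl⟩
      refine ⟨χ.map_target (hsub hx), ?_⟩
      rw [χ.right_inv (hsub hx), ← dist_eq_norm]
      exact hx
  rw [h1]
  exact ((isCompact_closedBall v ρ).image_of_continuousOn
    (χ.continuousOn_symm.mono hsub)).isClosed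

theorem t (hB : S_BUMP2) : S_PERT.{u} := by
  intro n N _ _ _ _ _ r hr F χ z₀ hχ U hU hFU
  obtain ⟨k, hk1, hkr, κ₀, hκ₀, hN⟩ := t_NBHD n N r hr ℝ (fun _ => F) (isFam_const F) χ z₀ hχ U hU
    hFU
  obtain ⟨C, hC, hB⟩ := hB n k hk1
  obtain ⟨κ, k0, k1, k2, k3, k4⟩ : ∃ κ : ℝ, 0 < κ ∧ κ ≤ κ₀ ∧ κ ≤ 1 / 32 ∧ κ ≤ κ₀ / (2 * C) ∧
      κ ≤ 1 / (4 * C) :=
    ⟨min (min κ₀ (1 / 32)) (min (κ₀ / (2 * C)) (1 / (4 * C))), by positivity,
      (min_le_left _ _).trans (min_le_left _ _), (min_le_left _ _).trans (min_le_right _ _),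
      (min_le_right _ _).trans (min_le_left _ _), (min_le_right _ _).trans (min_le_right _ _)⟩
  refine ⟨k, hk1, hkr, κ, k0, ?_⟩
  rintro ρ m z ⟨hz, hzn, hρ, hρκ, hm, hsrc, hw, hi⟩ T hT
  obtain ⟨v, hv⟩ : ∃ v, v = χ z := ⟨_, rfl⟩
  obtain ⟨w, hwdef⟩ : ∃ w, w = χ (F^[m] z) - v := ⟨_, rfl⟩
  rw [← hv] at hzn hw hi
  rw [← hwdef] at hw
  have hρk : 0 < ρ ^ k := pow_pos hρ k
  have hρk1 : 0 < ρ ^ (k - 1) := pow_pos hρ _
  have hρ1 : ρ ≤ 1 := by linarith
  have hρk' : ρ ^ k ≤ ρ := by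
    calc ρ ^ k ≤ ρ ^ 1 := pow_le_pow_of_le_one hρ.le hρ1 hk1
      _ = ρ := pow_one ρ
  have hwρ : ‖w‖ ≤ ρ / 2 := by
    refine hw.trans ?_
    calc κ * ρ ^ k ≤ (1 / 2) * ρ ^ k := by gcongr; linarith
      _ ≤ (1 / 2) * ρ := by gcongr
      _ = ρ / 2 := by ring
  obtain ⟨u, hu, huw, hu0⟩ := hB ρ hρ (by linarith) w hwρ (T - 1)
  have hq : ‖w‖ / ρ ^ k ≤ κ := by
    rw [div_le_iff₀ hρk]; exact hw
  have hq' : ‖T - 1‖ / ρ ^ (k - 1) ≤ κ := by
    rw [div_le_iff₀ hρk1]; exact hT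
  have hc0 : C * (‖w‖ / ρ ^ k + ‖T - 1‖ / ρ ^ (k - 1)) ≤ C * (κ + κ) :=
    mul_le_mul_of_nonneg_left (add_le_add hq hq') hC.le
  have hc1 : C * (‖w‖ / ρ ^ k + ‖T - 1‖ / ρ ^ (k - 1)) ≤ κ₀ := by
    refine hc0.trans ?_
    rw [le_div_iff₀ (by positivity)] at k3
    linarith
  have hc2 : C * (‖w‖ / ρ ^ k + ‖T - 1‖ / ρ ^ (k - 1)) ≤ 1 / 2 := by
    refine hc0.trans ?_
    rw [le_div_iff₀ (by positivity)] at k4
    linarith
  have hsh := small_shift (ρ := ρ) (v := v) hu (fun x hx => hu0 x (by linarith)) (by linarith)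
  obtain ⟨Θ, hΘ⟩ := Pool.Agent.W428.SC.push n N r χ z₀ hχ (fun x => u (x - v))
    (small_mono hsh hk1 hc2)
  have hGU := hN 0 (fun x => u (x - v)) Θ (by rw [norm_zero]; exact hκ₀)
    (small_mono hsh le_rfl hc1) hΘ
  have hG : ∀ y, (F.trans Θ) y = Θ (F y) := fun y => rfl
  -- outside of a closed ball nothing is changed
  obtain ⟨Bd, hBd⟩ : ∃ Bd : Set N, Bd = {y : N | y ∈ χ.source ∧ ‖χ y - v‖ ≤ ρ} := ⟨_, rfl⟩
  have hBc : IsClosed Bd := by
    rw [hBd]
    exact closed_ball hχ (by linarith)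
  have hfix : ∀ y, y ∉ Bd → Θ y = y := by
    intro y hy
    by_cases hys : y ∈ χ.source
    · obtain ⟨a, b⟩ := hΘ.1 _ hys
      have b1 : χ (Θ y) = χ y + u (χ y - v) := b
      have h2 : ρ ≤ ‖χ y - v‖ := by
        by_contra h3
        push Not at h3
        apply hy
        rw [hBd]
        exact ⟨hys, h3.le⟩
      rw [hu0 _ h2, add_zero] at b1
      exact χ.injOn a hys b1
    · exact hΘ.2 _ hys
  have hcont : ∀ i : ℕ, Continuous (F^[i] : N → N) := fun i => F.continuous.iterate i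
  -- the orbits of the points near `z`
  have key : ∀ i, i < m → ∀ᶠ y in 𝓝 z, (⇑(F.trans Θ))^[i] y = F^[i] y := by
    intro i
    induction i with
    | zero => intro _; exact Eventually.of_forall fun y => rfl
    | succ i ih =>
      intro him
      have h1 : ∀ᶠ y in 𝓝 z, F^[i + 1] y ∈ Bdᶜ := by
        apply (hcont (i + 1)).continuousAt.eventually_mem
        apply hBc.isOpen_compl.mem_nhds
        intro h2
        rw [hBd] at h2
        have h3 := hi (i + 1) (Nat.succ_pos i) him h2.1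
        have h4 := h2.2
        linarith
      filter_upwards [ih (by omega), h1] with y hy1 hy2
      rw [Function.iterate_succ_apply', hy1, hG, ← Function.iterate_succ_apply' F]
      exact hfix _ hy2
  have key2 : ∀ᶠ y in 𝓝 z, (⇑(F.trans Θ))^[m] y = Θ (F^[m] y) := by
    obtain ⟨m', rfl⟩ : ∃ m', m = m' + 1 := ⟨m - 1, by omega⟩
    filter_upwards [key m' (by omega)] with y hy
    rw [Function.iterate_succ_apply', hy, hG, ← Function.iterate_succ_apply' F]
  have hsrc' : ∀ᶠ y in 𝓝 z, F^[m] y ∈ χ.source :=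
    (hcont m).continuousAt.eventually_mem (χ.open_source.mem_nhds hsrc)
  have hcχ : ContinuousAt (fun y => χ (F^[m] y) - v) z := by
    have h1 : ContinuousAt χ (F^[m] z) := χ.continuousAt hsrc
    exact (ContinuousAt.comp (f := F^[m]) h1 (hcont m).continuousAt).sub continuousAt_const
  have hu' : ∀ᶠ y in 𝓝 z, u (χ (F^[m] y) - v) = -w + (T - 1) (χ (F^[m] y) - v - w) := by
    have h1 : Tendsto (fun y => χ (F^[m] y) - v) (𝓝 z) (𝓝 w) := by
      have := hcχ.tendsto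
      rwa [← hwdef] at this
    exact h1.eventually huw
  have key3 : ∀ᶠ y in 𝓝 z, (⇑(F.trans Θ))^[m] y ∈ χ.source ∧
      χ ((⇑(F.trans Θ))^[m] y) = v + T (χ (F^[m] y) - χ (F^[m] z)) := by
    filter_upwards [key2, hsrc', hu'] with y h1 h2 h3
    rw [h1]
    obtain ⟨a, b⟩ := hΘ.1 _ h2
    have b' : χ (Θ (F^[m] y)) = χ (F^[m] y) + u (χ (F^[m] y) - v) := b
    refine ⟨a, ?_⟩
    have e1 : χ (F^[m] y) - v - w = χ (F^[m] y) - χ (F^[m] z) := by
      rw [hwdef]; abel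
    rw [b', h3, e1, ContinuousLinearMap.sub_apply, ContinuousLinearMap.one_apply, hwdef]
    abel
  have hself := key3.self_of_nhds
  have hper : (⇑(F.trans Θ))^[m] z = z := by
    obtain ⟨h1, h2⟩ := hself
    apply χ.injOn h1 hz
    rw [h2, sub_self, map_zero, add_zero, hv]
  refine ⟨F.trans Θ, hGU, hper, fun D hD => ?_⟩
  unfold DerAt at hD ⊢
  have h1 : ContinuousAt χ.symm (χ z) := χ.continuousAt_symm (χ.map_source hz)
  have h2 : Tendsto χ.symm (𝓝 (χ z)) (𝓝 z) := by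
    have := h1.tendsto
    rwa [χ.left_inv hz] at this
  have h3 := h2.eventually key3
  have h4 : HasFDerivAt (fun v' => v + T (χ (F^[m] (χ.symm v')) - χ (F^[m] z))) (T.comp D) (χ z) :=
    (T.hasFDerivAt.comp (χ z) (hD.sub_const (χ (F^[m] z)))).const_add v
  refine h4.congr_of_eventuallyEq ?_
  filter_upwards [h3] with v' hv'
  exact hv'.2

end Pool.Agent.N813.OF.PERT
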