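import Pool.Agent.N813.OF.Stm
import Pool.Agent.N813.EM.MainF

/-!
# Project OF, part RESTR: polynomially close returns inside the support
-/

set_option autoImplicit false

open scoped Manifold ContDiff Topology
open MeasureTheory Filter Set Metric

universe u v

namespace Pool.Agent.N813.OF.RESTR

open Pool.Agent.H718R2.G Pool.Agent.W564.SC Pool.Agent.N813.EM Pool.Agent.Y368.CL
  Pool.Agent.TH80.OMS Pool.Agent.N813.OE

section

variable {B : Type v} [MetricSpace B] [MeasurableSpace B]

theorem isClosed_supp (μ : Measure B) : IsClosed {x : B | InSupp μ x} := by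
  rw [← isOpen_compl_iff, Metric.isOpen_iff]
  intro x hx
  have hx' : ¬ ∀ η : ℝ, 0 < η → 0 < μ (ball x η) := hx
  push Not at hx'
  obtain ⟨η, hη, h⟩ := hx'
  refine ⟨η / 2, by positivity, fun y hy hy' => ?_⟩
  have h1 : ball y (η / 2) ⊆ ball x η := by
    intro z hz
    rw [mem_ball] at hz hy ⊢
    linarith [dist_triangle z y x]
  exact absurd (hy' (η / 2) (by positivity)) (not_lt.2 ((measure_mono h1).trans h))

theorem null_compl [CompactSpace B] (μ : Measure B) : μ {x : B | InSupp μ x}ᶜ = 0 := by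
  have : SecondCountableTopology B := EMetric.secondCountable_of_sigmaCompact B
  refine measure_null_of_locally_null _ fun x hx => ?_
  have hx' : ¬ ∀ η : ℝ, 0 < η → 0 < μ (ball x η) := hx
  push Not at hx'
  obtain ⟨η, hη, h⟩ := hx'
  exact ⟨ball x η, mem_nhdsWithin_of_mem_nhds (ball_mem_nhds x hη), le_antisymm h bot_le⟩

theorem supp_iff [BorelSpace B] {μ : Measure B} (g : B ≃ₜ B) (hg : MeasurePreserving g μ μ) (x : B) :
    InSupp μ x ↔ InSupp μ (g x) := by
  constructor
  · intro h η hη
    have h1 : g ⁻¹' ball (g x) η ∈ 𝓝 x := g.continuous.continuousAt (ball_mem_nhds _ hη)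
    obtain ⟨η', hη', h2⟩ := Metric.mem_nhds_iff.1 h1
    rw [← hg.measure_preimage measurableSet_ball.nullMeasurableSet]
    exact (h η' hη').trans_le (measure_mono h2)
  · intro h η hη
    have h1 : g.symm ⁻¹' ball x η ∈ 𝓝 (g x) := by
      apply g.symm.continuous.continuousAt
      rw [g.symm_apply_apply]
      exact ball_mem_nhds _ hη
    obtain ⟨η', hη', h2⟩ := Metric.mem_nhds_iff.1 h1
    have h3 : g ⁻¹' (g.symm ⁻¹' ball x η) = ball x η := by
      ext y
      simp
    rw [← h3, hg.measure_preimage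
      (g.symm.continuous.measurable measurableSet_ball).nullMeasurableSet]
    exact (h η' hη').trans_le (measure_mono h2)

omit [MeasurableSpace B] in
/-- extension of Lipschitz functions with values in `[0, 1]` -/
theorem obs_ext {K : Set B} {L : ℝ} (hL : 1 ≤ L) {u : K → ℝ} (hu : Obs L u) :
    ∃ w : B → ℝ, Obs L w ∧ ∀ x : K, w x = u x := by
  classical
  set f : B → ℝ := fun x => if h : x ∈ K then u ⟨x, h⟩ else 0 with hf
  have h1 : LipschitzOnWith L.toNNReal f K := by
    refine LipschitzOnWith.of_dist_le_mul fun x hx y hy => ?_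
    rw [Real.coe_toNNReal L (by linarith), Real.dist_eq]
    simp only [hf, dif_pos hx, dif_pos hy]
    exact hu.2 ⟨x, hx⟩ ⟨y, hy⟩
  obtain ⟨w, hw1, hw2⟩ := h1.extend_real
  refine ⟨fun x => max 0 (min 1 (w x)), ⟨fun x => ⟨le_max_left _ _, max_le zero_le_one
    (min_le_left _ _)⟩, fun x y => ?_⟩, fun x => ?_⟩
  · have h2 := ((hw1.const_min 1).const_max 0).dist_le_mul x y
    rw [Real.coe_toNNReal L (by linarith), Real.dist_eq] at h2
    exact h2
  · have h2 : w x = u x := by
      rw [← hw2 x.2]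
      simp only [hf, dif_pos x.2]
    beta_reduce
    rw [h2, min_eq_right (hu.1 x).2, max_eq_right (hu.1 x).1]

omit [MeasurableSpace B] in
/-- the closed subset `K` has finite box dimension -/
theorem finDim_sub {K : Set B} (hK : K.Nonempty) (h : FinDim B) : FinDim K := by
  classical
  obtain ⟨C, D, h⟩ := h
  refine ⟨C * 2 ^ D, D, fun s hs hs1 => ?_⟩
  obtain ⟨t, ht1, ht2⟩ := h (s / 2) (by positivity) (by linarith)
  obtain ⟨x₀, hx₀⟩ := hK
  set pick : B → K := fun c => if h : ∃ k : K, dist (k : B) c ≤ s / 2 then h.choose else ⟨x₀, hx₀⟩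
    with hpick
  refine ⟨t.image pick, ?_, fun x => ?_⟩
  · calc ((t.image pick).card : ℝ) ≤ t.card := by exact_mod_cast Finset.card_image_le
      _ ≤ C * (1 / (s / 2)) ^ D := ht1
      _ = C * 2 ^ D * (1 / s) ^ D := by
        rw [mul_assoc, ← mul_pow]
        congr 2
        field_simp
  · obtain ⟨c, hc, hxc⟩ := ht2 x
    have hex : ∃ k : K, dist (k : B) c ≤ s / 2 := ⟨x, hxc⟩
    refine ⟨pick c, Finset.mem_image_of_mem _ hc, ?_⟩
    have h1 : dist ((pick c : K) : B) c ≤ s / 2 := by
      simp only [hpick, dif_pos hex]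
      exact hex.choose_spec
    rw [Subtype.dist_eq]
    linarith [dist_triangle_right (x : B) (pick c : B) c]

end

theorem t : S_RESTR.{v} := by
  intro B _ _ _ _ g μ b hfin hbl hmix
  obtain ⟨hprob, hmp, hfr, ⟨C, κ, β, q, hκ, hβ, hβ1, hM3⟩, hsupp⟩ := hmix
  set K : Set B := {x | InSupp μ x} with hK
  have hKc : IsClosed K := isClosed_supp μ
  have hKm : MeasurableSet K := hKc.measurableSet
  have hKn : μ Kᶜ = 0 := null_compl μ
  have hb : b ∈ K := hsupp
  have hgK : ∀ x, x ∈ K ↔ g x ∈ K := supp_iff g hmp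
  set gK : K ≃ₜ K := g.subtype hgK with hgKdef
  have hgKv : ∀ x : K, ((gK x : K) : B) = g x := fun x => rfl
  have hit : ∀ (m : ℕ) (x : K), ((gK^[m] x : K) : B) = g^[m] x := by
    intro m
    induction m with
    | zero => intro x; rfl
    | succ m ih =>
      intro x
      rw [Function.iterate_succ_apply', Function.iterate_succ_apply', hgKv, ih]
  set ν : Measure K := μ.comap Subtype.val with hν
  have hemb : MeasurableEmbedding (Subtype.val : K → B) := MeasurableEmbedding.subtype_coe hKm
  have hmap : Measure.map (Subtype.val : K → B) ν = μ := by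
    rw [hν, map_comap_subtype_coe hKm]
    exact Measure.restrict_eq_self_of_ae_mem (by
      rw [ae_iff]
      exact hKn)
  have hpre : ∀ A : Set B, MeasurableSet A → ν (Subtype.val ⁻¹' A) = μ A := by
    intro A hA
    rw [← Measure.map_apply measurable_subtype_coe hA, hmap]
  have hint : ∀ f : B → ℝ, ∫ x : K, f x ∂ν = ∫ x, f x ∂μ := by
    intro f
    rw [← hemb.integral_map, hmap]
  have hprobK : IsProbabilityMeasure ν := ⟨by
    have := hpre univ MeasurableSet.univ
    rw [preimage_univ] at this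
    rw [this]
    exact hprob.measure_univ⟩
  have hmpK : MeasurePreserving gK ν ν := by
    refine ⟨gK.continuous.measurable, ?_⟩
    have h1 : Measure.map (Subtype.val : K → B) (Measure.map gK ν) =
        Measure.map (Subtype.val : K → B) ν := by
      rw [Measure.map_map measurable_subtype_coe gK.continuous.measurable]
      have h2 : (Subtype.val : K → B) ∘ gK = g ∘ (Subtype.val : K → B) := by
        funext x
        exact hgKv x
      rw [h2, ← Measure.map_map g.continuous.measurable measurable_subtype_coe, hmap, hmp.map_eq]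
    rw [← hemb.comap_map (Measure.map gK ν), h1, hemb.comap_map]
  have hfrK : Frost ν := by
    obtain ⟨C', δ, hδ, h⟩ := hfr
    refine ⟨C', δ, hδ, fun x s hs => ?_⟩
    have h1 : closedBall x s = (Subtype.val : K → B) ⁻¹' closedBall (x : B) s := rfl
    rw [Measure.real, h1, hpre _ measurableSet_closedBall]
    exact h x s hs
  have hexpK : ExpMix gK ν := by
    refine ⟨C, κ, β, q, hκ, hβ, hβ1, ?_⟩
    intro L u v w hL hu hv hw i j
    obtain ⟨u', hu1, hu2⟩ := obs_ext hL hu
    obtain ⟨v', hv1, hv2⟩ := obs_ext hL hv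
    obtain ⟨w', hw1, hw2⟩ := obs_ext hL hw
    have h1 := hM3 L u' v' w' hL hu1 hv1 hw1 i j
    have e1 : ∫ x : K, u x * v (gK^[i] x) * w (gK^[i + j] x) ∂ν =
        ∫ x, u' x * v' (g^[i] x) * w' (g^[i + j] x) ∂μ := by
      rw [← hint (fun x => u' x * v' (g^[i] x) * w' (g^[i + j] x))]
      refine integral_congr_ae (Filter.Eventually.of_forall fun x => ?_)
      simp only
      rw [← hu2, ← hv2, ← hw2, hit, hit]
    have e2 : ∀ {f : K → ℝ} {f' : B → ℝ}, (∀ x : K, f' x = f x) → ∫ x : K, f x ∂ν = ∫ x, f' x ∂μ := by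
      intro f f' hff
      rw [← hint f']
      exact integral_congr_ae (Filter.Eventually.of_forall fun x => (hff x).symm)
    rw [e1, e2 hu2, e2 hv2, e2 hw2]
    exact h1
  have hsuppK : ∀ η : ℝ, 0 < η → 0 < ν (ball (⟨b, hb⟩ : K) η) := by
    intro η hη
    have h1 : ball (⟨b, hb⟩ : K) η = (Subtype.val : K → B) ⁻¹' ball b η := rfl
    rw [h1, hpre _ measurableSet_ball]
    exact hsupp η hη
  have hblK : BiLip gK := by
    obtain ⟨Λ, h⟩ := hbl
    exact ⟨Λ, fun x y => h x y⟩
  have hpc := polyClose gK (finDim_sub ⟨b, hb⟩ hfin) hblK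
    (⟨hprobK, hmpK, hfrK, hexpK, hsuppK⟩ : MixMeas gK ν (⟨b, hb⟩ : K))
  intro A η hη M
  obtain ⟨m, b', ρ, h1, h2, h3, h4, h5, h6⟩ := hpc A η hη M
  refine ⟨m, b', ρ, h1, b'.2, ?_, h2, h3, h4, ?_, ?_⟩
  · rw [← hit]
    exact (gK^[m] b').2
  · rw [← hit]
    exact h5
  · intro i hi him
    have := h6 i hi him
    rw [Subtype.dist_eq, hit] at this
    exact this

end Pool.Agent.N813.OF.RESTR
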