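import Pool.Agent.N813.OF.HYP
import Pool.Agent.N813.OF.BUMP2
import Pool.Agent.N813.OF.PERT
import Pool.Agent.N813.OF.MULT
import Pool.Agent.N813.OF.GAP
import Pool.Agent.N813.OF.RESTR
import Pool.Agent.N813.OF.EIGI
import Pool.Agent.N813.OF.NEU
import Pool.Agent.N813.EM.MainF

/-!
# Project OF: main theorem
-/

set_option autoImplicit false

open scoped Manifold ContDiff Topology
open MeasureTheory Filter Set Metric

universe u v

namespace Pool.Agent.N813.OF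

open Pool.Agent.H718R2.G Pool.Agent.W564.SC Pool.Agent.N813.EM Pool.Agent.Y368.CL
  Pool.Agent.TH80.OMS Pool.Agent.N813.OE

/-- robust hyperbolicity at close returns -/
theorem robust {n : ℕ} {N : Type u} [TopologicalSpace N] [T2Space N] [CompactSpace N]
    [ChartedSpace (V n) N] [IsManifold (𝓡 n) ∞ N] {r : ℕ∞} (hr : 1 ≤ r) (F : DiffM n N r)
    (hF : OmegaStable n N r F) (χ : OpenPartialHomeomorph N (V n)) (z₀ : N)
    (hχ : GoodChart n N χ z₀) :
    ∃ k : ℕ, 1 ≤ k ∧ (k : ℕ∞) ≤ r ∧ ∃ κ : ℝ, 0 < κ ∧ RobustAt F χ k κ :=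
  rob (PERT.t BUMP2.t) n N r hr F hF χ z₀ hχ

/-- eigenvalues at periodic points -/
theorem gap {n : ℕ} {N : Type u} [MetricSpace N] [CompactSpace N]
    [ChartedSpace (V n) N] [IsManifold (𝓡 n) ∞ N] {r : ℕ∞} (hr : 1 ≤ r) (hN : ChartLip n N)
    (F : DiffM n N r) (hF : OmegaStable n N r F) :
    ∃ k : ℕ, 1 ≤ k ∧ (k : ℕ∞) ≤ r ∧ ∃ κ : ℝ, 0 < κ ∧ PerGap n F k κ :=
  GAP.t (MULT.t BUMP2.t) HYP.t n N r hr hN F hF

/-- no isometric directions -/
theorem notNeutral {n : ℕ} {N : Type u} [MetricSpace N] [CompactSpace N] [MeasurableSpace N]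
    [BorelSpace N] [ChartedSpace (V n) N] [IsManifold (𝓡 n) ∞ N] {r : ℕ∞} (hr : 1 ≤ r)
    (hN : ChartLip n N) (F : DiffM n N r) (hF : OmegaStable n N r F) (μ : Measure N) (z : N)
    (h : MixMeas F μ z) : ¬ Neutral n F {x | InSupp μ x} z := by
  apply NEU.t EIGI.t n N F F.continuous _ hN _ _ z
    (RESTR.t N F.toHomeomorph μ z (FIN.t n N hN) (bilip BIL.t hN hr F) h)
  · intro χ z₀ hχ
    obtain ⟨k, hk1, -, κ, hκ, h⟩ := robust hr F hF χ z₀ hχ
    exact ⟨k, hk1, κ, hκ, h⟩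
  · intro χ z₀ hχ m y hy hm
    exact derAt hr F hχ m y hy hm

end Pool.Agent.N813.OF
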