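import Pool.Agent.N813.OE.Defs

/-!
# Project OF: derivatives at close returns of `Ω`-stable diffeomorphisms (definitions)

`DiffM n N r = Diff^r(N)`, `OmegaStable`, `Per F`, `GoodChart`, `ChartLip`, `MixMeas`, `InSupp`: as in
projects EM and OE.
-/

set_option autoImplicit false

open scoped Manifold ContDiff Topology
open MeasureTheory Filter Set Metric

universe u v

namespace Pool.Agent.N813.OF

open Pool.Agent.H718R2.G Pool.Agent.W564.SC Pool.Agent.N813.EM Pool.Agent.Y368.CL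
  Pool.Agent.TH80.OMS Pool.Agent.N813.OE

/-- `μ` is a complex eigenvalue of the real linear map `D`. -/
def Eig {n : ℕ} (D : V n →L[ℝ] V n) (μ : ℂ) : Prop :=
  ((LinearMap.charpoly (D : V n →ₗ[ℝ] V n)).map (algebraMap ℝ ℂ)).IsRoot μ

/-- `D` is the derivative of `F^m` at `z`, in the chart `χ`. -/
def DerAt {n : ℕ} {N : Type u} [TopologicalSpace N] (F : N → N)
    (χ : OpenPartialHomeomorph N (V n)) (m : ℕ) (z : N) (D : V n →L[ℝ] V n) : Prop :=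
  HasFDerivAt (fun v => χ (F^[m] (χ.symm v))) D (χ z)

/-- The point `z` returns at the time `m ≥ 1` to the distance `κ ρ^k` (in the chart `χ`), and not to
the distance `2 ρ` before. -/
def CloseRet {n : ℕ} {N : Type u} [TopologicalSpace N] (F : N → N)
    (χ : OpenPartialHomeomorph N (V n)) (k : ℕ) (κ ρ : ℝ) (m : ℕ) (z : N) : Prop :=
  z ∈ χ.source ∧ ‖χ z‖ < κ ∧ 0 < ρ ∧ ρ < κ ∧ 1 ≤ m ∧ F^[m] z ∈ χ.source ∧
    ‖χ (F^[m] z) - χ z‖ ≤ κ * ρ ^ k ∧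
    ∀ i, 0 < i → i < m → F^[i] z ∈ χ.source → 2 * ρ ≤ ‖χ (F^[i] z) - χ z‖

/-- Near the centre of the chart `χ` the derivatives of `F` at close returns are hyperbolic, also
after composition with linear maps `T` with `‖T - 1‖ ≤ κ ρ^(k-1)`. -/
def RobustAt {n : ℕ} {N : Type u} [TopologicalSpace N] (F : N → N)
    (χ : OpenPartialHomeomorph N (V n)) (k : ℕ) (κ : ℝ) : Prop :=
  ∀ (ρ : ℝ) (m : ℕ) (z : N), CloseRet F χ k κ ρ m z → ∀ D : V n →L[ℝ] V n, DerAt F χ m z D →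
    ∀ T : V n →L[ℝ] V n, ‖T - 1‖ ≤ κ * ρ ^ (k - 1) → ∀ μ : ℂ, Eig (T.comp D) μ → ‖μ‖ ≠ 1

/-- The points `F^i p`, `0 ≤ i < m`, have distances at least `ρ i` from the others. -/
def Apart {N : Type u} [MetricSpace N] (F : N → N) (m : ℕ) (p : N) (ρ : ℕ → ℝ) : Prop :=
  ∀ i < m, 0 < ρ i ∧ ∀ j < m, j ≠ i → ρ i ≤ dist (F^[j] p) (F^[i] p)

/-- The eigenvalues at the periodic points: if `F^m p = p` and the points `F^i p` have distances at
least `ρ i < κ` from the others, then `|log |μ|| ≥ κ ∑ (ρ i)^(k-1)` for all eigenvalues `μ` of the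
derivative of `F^m` at `p`. -/
def PerGap (n : ℕ) {N : Type u} [MetricSpace N] [ChartedSpace (V n) N] (F : N → N) (k : ℕ) (κ : ℝ) :
    Prop :=
  ∀ (m : ℕ) (p : N) (ρ : ℕ → ℝ), 1 ≤ m → F^[m] p = p → Apart F m p ρ → (∀ i < m, ρ i < κ) →
    ∀ ψ ∈ IsManifold.maximalAtlas (𝓡 n) ∞ N, p ∈ ψ.source → ∀ D : V n →L[ℝ] V n,
      DerAt F ψ m p D → ∀ μ : ℂ, Eig D μ →
        κ * ∑ i ∈ Finset.range m, ρ i ^ (k - 1) ≤ |Real.log ‖μ‖|

/-- `F` has an isometric direction along `K` near `z₀`: in a chart `χ` at `z₀` there is a Hölder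
continuous family of injective linear maps `J y : ℝ^d → ℝ^n` (`d ≥ 1`, `y ∈ K` close to `z₀`) such that
the derivatives of the iterates of `F`, at the times at which a point `y ∈ K` close to `z₀` returns
close to `z₀`, map the image of `J y` to the image of `J (F^m y)`, isometrically. -/
def Neutral (n : ℕ) {N : Type u} [TopologicalSpace N] [ChartedSpace (V n) N] (F : N → N)
    (K : Set N) (z₀ : N) : Prop :=
  ∃ (χ : OpenPartialHomeomorph N (V n)) (d : ℕ) (J : N → V d →L[ℝ] V n) (C θ δ c : ℝ),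
    GoodChart n N χ z₀ ∧ 1 ≤ d ∧ 0 < θ ∧ 0 < δ ∧ 0 < c ∧
    (∀ y ∈ K, y ∈ χ.source → ‖χ y‖ < δ → ∀ e, c * ‖e‖ ≤ ‖J y e‖) ∧
    (∀ y ∈ K, ∀ y' ∈ K, y ∈ χ.source → y' ∈ χ.source → ‖χ y‖ < δ → ‖χ y'‖ < δ →
      ‖J y - J y'‖ ≤ C * ‖χ y - χ y'‖ ^ θ) ∧
    ∀ y ∈ K, ∀ m : ℕ, 1 ≤ m → y ∈ χ.source → F^[m] y ∈ χ.source → ‖χ y‖ < δ →
      ‖χ (F^[m] y)‖ < δ → ∃ O : V d ≃ₗᵢ[ℝ] V d, ∀ D : V n →L[ℝ] V n, DerAt F χ m y D →
        ∀ e, D (J y e) = J (F^[m] y) (O e)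

/-- `PolyClose` with points of `K`. -/
def PolyOn {B : Type v} [MetricSpace B] (g : B → B) (K : Set B) (b : B) : Prop :=
  ∀ (A : ℕ) (η : ℝ), 0 < η → ∀ M : ℕ, ∃ (m : ℕ) (b' : B) (ρ : ℝ), M ≤ m ∧ b' ∈ K ∧
    g^[m] b' ∈ K ∧ dist b' b < η ∧ 0 < ρ ∧ ρ < η ∧ dist (g^[m] b') b' ≤ ρ ^ A ∧
    ∀ i, 0 < i → i < m → ρ ≤ dist (g^[i] b') b'

end Pool.Agent.N813.OF
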