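import Pool.Agent.N813.OF.Main

/-!
# Project OF: isometric directions
-/

set_option autoImplicit false

open scoped Manifold ContDiff Topology
open MeasureTheory Filter Set Metric

universe u v

namespace Pool.Agent.N813.OF

open Pool.Agent.H718R2.G Pool.Agent.W564.SC Pool.Agent.N813.EM Pool.Agent.Y368.CL
  Pool.Agent.TH80.OMS Pool.Agent.N813.OE

/-- The points of `K` at a distance less than `δ` from the centre of the chart `χ`. -/
def Near {n : ℕ} {N : Type u} [TopologicalSpace N] (χ : OpenPartialHomeomorph N (V n)) (K : Set N)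
    (δ : ℝ) : Set N := {y | y ∈ K ∧ y ∈ χ.source ∧ ‖χ y‖ < δ}

/-- The linear maps `J y : ℝ^d → ℝ^n`, `y ∈ K'`, are injective, with the uniform bound
`‖J y e‖ ≥ c ‖e‖`. -/
def UnifInj {n d : ℕ} {N : Type u} (K' : Set N) (J : N → V d →L[ℝ] V n) (c : ℝ) : Prop :=
  ∀ y ∈ K', ∀ e, c * ‖e‖ ≤ ‖J y e‖

/-- The linear maps `J y` depend on `y ∈ K'` in a Hölder continuous way. -/
def HolderOn' {n d : ℕ} {N : Type u} [TopologicalSpace N] (χ : OpenPartialHomeomorph N (V n))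
    (K' : Set N) (J : N → V d →L[ℝ] V n) (C θ : ℝ) : Prop :=
  ∀ y ∈ K', ∀ y' ∈ K', ‖J y - J y'‖ ≤ C * ‖χ y - χ y'‖ ^ θ

/-- If `y` and `F^m y` lie in `K'`, `m ≥ 1`, then the derivative of `F^m` at `y` maps the image of
`J y` to the image of `J (F^m y)`, isometrically: `D (J y e) = J (F^m y) (O e)`, `O` orthogonal. -/
def IsoAt {n d : ℕ} {N : Type u} [TopologicalSpace N] (F : N → N)
    (χ : OpenPartialHomeomorph N (V n)) (K' : Set N) (J : N → V d →L[ℝ] V n) : Prop :=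
  ∀ y ∈ K', ∀ m : ℕ, 1 ≤ m → F^[m] y ∈ K' → ∃ O : V d ≃ₗᵢ[ℝ] V d, ∀ D : V n →L[ℝ] V n,
    DerAt F χ m y D → ∀ e, D (J y e) = J (F^[m] y) (O e)

/-- `F` has an isometric direction along the (invariant) set `K` near `z₀`: in a chart `χ` at `z₀` there
is a Hölder continuous family of injective linear maps `J y : ℝ^d → ℝ^n` (`d ≥ 1`, `y ∈ K` close to
`z₀`) such that the derivatives of the iterates of `F`, at the times at which a point `y ∈ K` close to
`z₀` returns close to `z₀`, map the image of `J y` to the image of `J (F^m y)`, isometrically. -/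
def IsoDir (n : ℕ) {N : Type u} [TopologicalSpace N] [ChartedSpace (V n) N] (F : N → N)
    (K : Set N) (z₀ : N) : Prop :=
  ∃ (χ : OpenPartialHomeomorph N (V n)) (d : ℕ) (J : N → V d →L[ℝ] V n) (C θ δ c : ℝ),
    GoodChart n N χ z₀ ∧ 1 ≤ d ∧ 0 < θ ∧ 0 < δ ∧ 0 < c ∧ UnifInj (Near χ K δ) J c ∧
      HolderOn' χ (Near χ K δ) J C θ ∧ IsoAt F χ (Near χ K δ) J

/-- `mapsTo F K K`: isometric directions are neutral. -/
theorem IsoDir.neutral {n : ℕ} {N : Type u} [TopologicalSpace N] [ChartedSpace (V n) N]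
    {F : N → N} {K : Set N} {z₀ : N} (hK : MapsTo F K K) (h : IsoDir n F K z₀) :
    Neutral n F K z₀ := by
  obtain ⟨χ, d, J, C, θ, δ, c, hχ, hd, hθ, hδ, hc, h1, h2, h3⟩ := h
  refine ⟨χ, d, J, C, θ, δ, c, hχ, hd, hθ, hδ, hc, fun y hy hy1 hy2 => h1 y ⟨hy, hy1, hy2⟩,
    fun y hy y' hy' a a' b b' => h2 y ⟨hy, a, b⟩ y' ⟨hy', a', b'⟩, ?_⟩
  intro y hy m hm a a' b b'
  exact h3 y ⟨hy, a, b⟩ m hm ⟨hK.iterate m hy, a', b'⟩

/-- no isometric directions -/
theorem notIsoDir {n : ℕ} {N : Type u} [MetricSpace N] [CompactSpace N] [MeasurableSpace N]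
    [BorelSpace N] [ChartedSpace (V n) N] [IsManifold (𝓡 n) ∞ N] {r : ℕ∞} (hr : 1 ≤ r)
    (hN : ChartLip n N) (F : DiffM n N r) (hF : OmegaStable n N r F) (μ : Measure N) (z : N)
    (h : MixMeas F μ z) : ¬ IsoDir n F {x | InSupp μ x} z := fun hI =>
  notNeutral hr hN F hF μ z h (hI.neutral fun x hx => (RESTR.supp_iff F.toHomeomorph h.2.1 x).1 hx)

end Pool.Agent.N813.OF
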