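import Pool.Agent.N813.OF.Stm

/-!
# Project OF: hyperbolicity of the periodic points of all nearby maps
-/

set_option autoImplicit false

open scoped Manifold ContDiff Topology
open MeasureTheory Filter Set Metric

universe u v

namespace Pool.Agent.N813.OF

open Pool.Agent.H718R2.G Pool.Agent.W564.SC Pool.Agent.N813.EM Pool.Agent.Y368.CL
  Pool.Agent.TH80.OMS Pool.Agent.N813.OE

theorem HYP.t : S_HYP.{u} := by
  intro n N _ _ _ _ _ r hr F hF
  obtain ⟨U, hU, hFU, h⟩ := hF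
  refine ⟨U, hU, hFU, fun G hG m p hm hp ψ hψ hpψ D hD μ hμ => ?_⟩
  have hGs : OmegaStable n N r G := by
    refine ⟨U, hU, hG, fun G' hG' => ?_⟩
    exact Pool.Agent.R773.TE.omegaConj_trans
      (Pool.Agent.R773.TE.omegaConj_symm F.continuous (h G hG)) (h G' hG')
  obtain ⟨D', hD', hroot⟩ := (Pool.Agent.Y504.CO.Gen.stable_hyp hr hGs p ⟨m, hm, hp⟩).2 m hm hp ψ
    hψ hpψ
  have : D = D' := hD.unique hD'
  rw [this] at hμ
  exact hroot μ hμ

theorem rob (hP : S_PERT.{u}) : S_ROB.{u} := by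
  intro n N _ _ _ _ _ r hr F hF χ z₀ hχ
  obtain ⟨U, hU, hFU, h⟩ := HYP.t n N r hr F hF
  obtain ⟨k, hk1, hkr, κ, hκ, hp⟩ := hP n N r hr F χ z₀ hχ U hU hFU
  refine ⟨k, hk1, hkr, κ, hκ, fun ρ m z hz D hD T hT μ hμ => ?_⟩
  obtain ⟨G, hG, hGz, hGD⟩ := hp ρ m z hz T hT
  exact h G hG m z hz.2.2.2.2.1 hGz χ hχ.mem hz.1 _ (hGD D hD) μ hμ

/-- the derivative exists -/
theorem derAt {n : ℕ} {N : Type u} [MetricSpace N] [ChartedSpace (V n) N]
    [IsManifold (𝓡 n) ∞ N] {r : ℕ∞} (hr : 1 ≤ r) (F : DiffM n N r)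
    {χ : OpenPartialHomeomorph N (V n)} {z₀ : N} (hχ : GoodChart n N χ z₀) (m : ℕ) (y : N)
    (hy : y ∈ χ.source) (hm : F^[m] y ∈ χ.source) : ∃ D : V n →L[ℝ] V n, DerAt F χ m y D := by
  have hit : ContMDiff (𝓡 n) (𝓡 n) r (F^[m]) := by
    clear hm
    induction m with
    | zero => exact contMDiff_id
    | succ m ih =>
      rw [Function.iterate_succ']
      exact F.contMDiff.comp ih
  have hd := diff_charts hr (F^[m]) hit hχ.mem hχ.mem (x := χ y) (χ.map_source hy)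
    (by rw [χ.left_inv hy]; exact hm)
  exact ⟨_, hd.hasFDerivAt⟩

end Pool.Agent.N813.OF
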