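import Pool.Agent.N813.OF.Defs
import Pool.Agent.Y504.CO.Gen
import Pool.Agent.R773.TE.One

/-!
# Project OF: statements of the parts
-/

set_option autoImplicit false

open scoped Manifold ContDiff Topology
open MeasureTheory Filter Set Metric

universe u v

namespace Pool.Agent.N813.OF

open Pool.Agent.H718R2.G Pool.Agent.W564.SC Pool.Agent.N813.EM Pool.Agent.Y368.CL
  Pool.Agent.TH80.OMS Pool.Agent.N813.OE

/-- BUMP2: scaled affine bumps. -/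
def S_BUMP2 : Prop :=
  ∀ n k : ℕ, 1 ≤ k → ∃ C : ℝ, 0 < C ∧ ∀ ρ : ℝ, 0 < ρ → ρ ≤ 1 / 4 → ∀ w : V n, ‖w‖ ≤ ρ / 2 →
    ∀ T : V n →L[ℝ] V n, ∃ u : V n → V n,
      Small n k (C * (‖w‖ / ρ ^ k + ‖T‖ / ρ ^ (k - 1))) u ∧
      (∀ᶠ x in 𝓝 w, u x = -w + T (x - w)) ∧ ∀ x, ρ ≤ ‖x‖ → u x = 0

/-- PERT: closing with prescribed derivative. -/
def S_PERT : Prop :=
  ∀ (n : ℕ) (N : Type u) [TopologicalSpace N] [T2Space N] [CompactSpace N]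
    [ChartedSpace (V n) N] [IsManifold (𝓡 n) ∞ N] (r : ℕ∞), 1 ≤ r → ∀ F : DiffM n N r,
    ∀ (χ : OpenPartialHomeomorph N (V n)) (z₀ : N), GoodChart n N χ z₀ →
    ∀ U : Set (DiffM n N r), IsOpen[strongTop n N r] U → F ∈ U →
    ∃ k : ℕ, 1 ≤ k ∧ (k : ℕ∞) ≤ r ∧ ∃ κ : ℝ, 0 < κ ∧ ∀ (ρ : ℝ) (m : ℕ) (z : N),
      CloseRet F χ k κ ρ m z → ∀ T : V n →L[ℝ] V n, ‖T - 1‖ ≤ κ * ρ ^ (k - 1) →
      ∃ G ∈ U, G^[m] z = z ∧ ∀ D : V n →L[ℝ] V n, DerAt F χ m z D → DerAt G χ m z (T.comp D)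

/-- MULT: multiplication of the derivative at a periodic point. -/
def S_MULT : Prop :=
  ∀ (n : ℕ) (N : Type u) [TopologicalSpace N] [T2Space N] [CompactSpace N]
    [ChartedSpace (V n) N] [IsManifold (𝓡 n) ∞ N] (r : ℕ∞), 1 ≤ r → ∀ F : DiffM n N r,
    ∀ (χ : OpenPartialHomeomorph N (V n)) (z₀ : N), GoodChart n N χ z₀ →
    ∀ U : Set (DiffM n N r), IsOpen[strongTop n N r] U → F ∈ U →
    ∃ k : ℕ, 1 ≤ k ∧ (k : ℕ∞) ≤ r ∧ ∃ κ : ℝ, 0 < κ ∧ ∀ (m : ℕ) (p : N), 1 ≤ m → F^[m] p = p →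
      ∀ (I : Finset ℕ) (ρ t : ℕ → ℝ), (∀ i ∈ I, i < m ∧ F^[i] p ∈ χ.source ∧ ‖χ (F^[i] p)‖ < κ ∧
        0 < ρ i ∧ ρ i < κ ∧ |t i| ≤ κ * ρ i ^ (k - 1) ∧ ∀ j < m, j ≠ i → F^[j] p ∈ χ.source →
          2 * ρ i ≤ ‖χ (F^[j] p) - χ (F^[i] p)‖) →
      ∃ G ∈ U, G^[m] p = p ∧ ∀ ψ ∈ IsManifold.maximalAtlas (𝓡 n) ∞ N, p ∈ ψ.source →
        ∀ D : V n →L[ℝ] V n, DerAt F ψ m p D → DerAt G ψ m p ((∏ i ∈ I, (1 + t i)) • D)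

/-- HYP: near an `Ω`-stable diffeomorphism all periodic points are hyperbolic. -/
def S_HYP : Prop :=
  ∀ (n : ℕ) (N : Type u) [TopologicalSpace N] [T2Space N] [CompactSpace N]
    [ChartedSpace (V n) N] [IsManifold (𝓡 n) ∞ N] (r : ℕ∞), 1 ≤ r → ∀ F : DiffM n N r,
    OmegaStable n N r F → ∃ U : Set (DiffM n N r), IsOpen[strongTop n N r] U ∧ F ∈ U ∧
      ∀ G ∈ U, ∀ (m : ℕ) (p : N), 1 ≤ m → G^[m] p = p →
        ∀ ψ ∈ IsManifold.maximalAtlas (𝓡 n) ∞ N, p ∈ ψ.source → ∀ D : V n →L[ℝ] V n,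
          DerAt G ψ m p D → ∀ μ : ℂ, Eig D μ → ‖μ‖ ≠ 1

/-- ROB: robust hyperbolicity at close returns. -/
def S_ROB : Prop :=
  ∀ (n : ℕ) (N : Type u) [TopologicalSpace N] [T2Space N] [CompactSpace N]
    [ChartedSpace (V n) N] [IsManifold (𝓡 n) ∞ N] (r : ℕ∞), 1 ≤ r → ∀ F : DiffM n N r,
    OmegaStable n N r F → ∀ (χ : OpenPartialHomeomorph N (V n)) (z₀ : N), GoodChart n N χ z₀ →
    ∃ k : ℕ, 1 ≤ k ∧ (k : ℕ∞) ≤ r ∧ ∃ κ : ℝ, 0 < κ ∧ RobustAt F χ k κ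

/-- GAP: eigenvalues at the periodic points. -/
def S_GAP : Prop :=
  ∀ (n : ℕ) (N : Type u) [MetricSpace N] [CompactSpace N]
    [ChartedSpace (V n) N] [IsManifold (𝓡 n) ∞ N] (r : ℕ∞), 1 ≤ r → ChartLip n N →
    ∀ F : DiffM n N r, OmegaStable n N r F →
    ∃ k : ℕ, 1 ≤ k ∧ (k : ℕ∞) ≤ r ∧ ∃ κ : ℝ, 0 < κ ∧ PerGap n F k κ

/-- RESTR: polynomially close returns of points of the support. -/
def S_RESTR : Prop :=
  ∀ (B : Type v) [MetricSpace B] [CompactSpace B] [MeasurableSpace B] [BorelSpace B]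
    (g : B ≃ₜ B) (μ : Measure B) (b : B), FinDim B → BiLip g → MixMeas g μ b →
    PolyOn g {x | InSupp μ x} b

/-- EIGI: a linear map which is an isometry on an invariant subspace has an eigenvalue of modulus
one. -/
def S_EIGI : Prop :=
  ∀ (n d : ℕ) (D : V n →L[ℝ] V n) (J : V d →L[ℝ] V n) (O : V d ≃ₗᵢ[ℝ] V d), 1 ≤ d →
    Function.Injective J → (∀ e, D (J e) = J (O e)) → ∃ μ : ℂ, ‖μ‖ = 1 ∧ Eig D μ

/-- NEU: no isometric directions. -/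
def S_NEU : Prop :=
  ∀ (n : ℕ) (N : Type u) [MetricSpace N] [CompactSpace N]
    [ChartedSpace (V n) N] [IsManifold (𝓡 n) ∞ N] (F : N → N), Continuous F →
    (∀ (χ : OpenPartialHomeomorph N (V n)) (z₀ : N), GoodChart n N χ z₀ → ∃ k : ℕ, 1 ≤ k ∧
      ∃ κ : ℝ, 0 < κ ∧ RobustAt F χ k κ) → ChartLip n N →
    (∀ (χ : OpenPartialHomeomorph N (V n)) (z₀ : N), GoodChart n N χ z₀ → ∀ (m : ℕ) (y : N),
      y ∈ χ.source → F^[m] y ∈ χ.source → ∃ D : V n →L[ℝ] V n, DerAt F χ m y D) →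
    ∀ (K : Set N) (z₀ : N), PolyOn F K z₀ → ¬ Neutral n F K z₀

end Pool.Agent.N813.OF
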